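import Pool.Agent.V1139.NA.Mono

/-!
# Linear forms with polynomial coefficients, and polynomials in one number

Author: helper39.
-/

set_option autoImplicit false

namespace Pool.Agent.V1139.NA

open Pool.Agent.TH456.TM (σx MeasT σx_coeff)
open Pool.Agent.V11210.NA (AF fn fn_inj exists_irr toMv eval₂_toMv small_toMv)
open scoped Polynomial

/-- the linear form with coefficients in `ℤ[X]` -/
noncomputable def lf {r : ℕ} (R : ℤ[X]) (c : Fin r → ℤ[X]) : MvPolynomial (Fin r) ℤ[X] :=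
  MvPolynomial.C R + ∑ i, MvPolynomial.monomial (Finsupp.single i 1) (c i)

lemma eval₂_lf {K : Type} [Field K] {r : ℕ} (φ : ℤ[X] →+* K) (v : Fin r → K) (R : ℤ[X])
    (c : Fin r → ℤ[X]) : (lf R c).eval₂ φ v = φ R + ∑ i, φ (c i) * v i := by
  unfold lf
  rw [MvPolynomial.eval₂_add, MvPolynomial.eval₂_C, MvPolynomial.eval₂_sum]
  congr 1
  refine Finset.sum_congr rfl fun i _ => ?_
  rw [MvPolynomial.eval₂_monomial, Finsupp.prod_single_index (h := fun n e => v n ^ e) (pow_zero _),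
    pow_one]

lemma coeff_lf {r : ℕ} (R : ℤ[X]) (c : Fin r → ℤ[X]) (m : Fin r →₀ ℕ) :
    (lf R c).coeff m = 0 ∨ (lf R c).coeff m = R ∨ ∃ i, (lf R c).coeff m = c i := by
  classical
  unfold lf
  rw [MvPolynomial.coeff_add, MvPolynomial.coeff_C, MvPolynomial.coeff_sum]
  simp only [MvPolynomial.coeff_monomial]
  by_cases h0 : 0 = m
  · right; left
    rw [if_pos h0, Finset.sum_eq_zero, add_zero]
    intro i _
    rw [if_neg]
    intro h
    rw [← h0] at h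
    simp at h
  · rw [if_neg h0, zero_add]
    by_cases h1 : ∃ j, Finsupp.single j 1 = m
    · obtain ⟨j, hj⟩ := h1
      right; right
      refine ⟨j, ?_⟩
      rw [Finset.sum_eq_single j]
      · rw [if_pos hj]
      · intro i _ hij
        rw [if_neg]
        intro h
        rw [← hj, Finsupp.single_left_inj one_ne_zero] at h
        exact hij h
      · intro h
        exact absurd (Finset.mem_univ _) h
    · left
      refine Finset.sum_eq_zero fun i _ => ?_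
      rw [if_neg]
      exact fun h => h1 ⟨i, h⟩

lemma small_lf {r D : ℕ} (hD : 1 ≤ D) (H : ℝ) (R : ℤ[X]) (c : Fin r → ℤ[X])
    (hR : R.natDegree ≤ D) (hc : ∀ i, (c i).natDegree ≤ D) (hRH : ∀ k, |(R.coeff k : ℝ)| ≤ H)
    (hcH : ∀ i k, |((c i).coeff k : ℝ)| ≤ H) :
    Pool.Agent.V11210.NA.Small D H (lf R c) := by
  have hH : 0 ≤ H := (abs_nonneg _).trans (hRH 0)
  constructor
  · unfold lf
    refine (MvPolynomial.totalDegree_add _ _).trans (max_le ?_ ?_)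
    · rw [MvPolynomial.totalDegree_C]
      exact Nat.zero_le _
    · refine MvPolynomial.totalDegree_finsetSum_le fun i _ => ?_
      refine (MvPolynomial.totalDegree_monomial_le _ _).trans ?_
      rw [Finsupp.sum_single_index rfl]
      exact hD
  · intro m
    rcases coeff_lf R c m with h | h | ⟨i, h⟩
    · rw [h]
      exact ⟨by simp, fun k => by simpa using hH⟩
    · rw [h]
      exact ⟨hR, hRH⟩
    · rw [h]
      exact ⟨hc i, hcH i⟩

/-- the relations modulo constants -/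
def rel {r : ℕ} (y : Fin r → AF) : AddSubgroup (ℤ[X] × (Fin r → ℤ[X])) where
  carrier := {v | IsConst (fn v.1 + ∑ i, fn (v.2 i) * y i)}
  zero_mem' := by
    show IsConst _
    simp only [Prod.fst_zero, Prod.snd_zero, Pi.zero_apply, map_zero, zero_mul,
      Finset.sum_const_zero, add_zero]
    exact ⟨0, by simp⟩
  add_mem' := by
    intro v w hv hw
    show IsConst _
    have e : fn (v + w).1 + ∑ i, fn ((v + w).2 i) * y i =
        (fn v.1 + ∑ i, fn (v.2 i) * y i) + (fn w.1 + ∑ i, fn (w.2 i) * y i) := by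
      rw [Prod.fst_add, Prod.snd_add, map_add]
      have e1 : ∑ i, fn ((v.2 + w.2) i) * y i =
          (∑ i, fn (v.2 i) * y i) + ∑ i, fn (w.2 i) * y i := by
        rw [← Finset.sum_add_distrib]
        exact Finset.sum_congr rfl fun i _ => by rw [Pi.add_apply, map_add, add_mul]
      rw [e1]
      ring
    rw [e]
    exact isConst_add hv hw
  neg_mem' := by
    intro v hv
    show IsConst _
    have e : fn (-v).1 + ∑ i, fn ((-v).2 i) * y i = -(fn v.1 + ∑ i, fn (v.2 i) * y i) := by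
      rw [Prod.fst_neg, Prod.snd_neg, map_neg, neg_add, ← Finset.sum_neg_distrib]
      congr 1
      exact Finset.sum_congr rfl fun i _ => by rw [Pi.neg_apply, map_neg, neg_mul]
    rw [e]
    exact isConst_neg hv

/-- **Linear forms in arbitrary numbers with coefficients which are polynomials in `x`** -/
theorem forms_poly (x : ℝ) (hx : MeasT (x : ℂ)) (r D : ℕ) (hD : 1 ≤ D) :
    ∃ ν : ℝ, 0 < ν ∧ ∀ T : ℝ, ∃ K δ : ℝ, 0 < K ∧ 0 < δ ∧ ∀ t : Fin r → ℝ, (∀ i, |t i| ≤ T) →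
      ∀ Λ : ℝ, ∃ N : AddSubgroup (ℤ[X] × (Fin r → ℤ[X])),
        (∀ R : ℤ[X], (R, (0 : Fin r → ℤ[X])) ∈ N → R.natDegree = 0) ∧
        ∀ (R : ℤ[X]) (c : Fin r → ℤ[X]) (D₀ : ℕ), R.natDegree ≤ D → (∀ i, (c i).natDegree ≤ D) →
          (∀ k, |(R.coeff k : ℝ)| ≤ Real.exp (δ * Λ)) →
          (∀ i k, |((c i).coeff k : ℝ)| ≤ Real.exp (δ * Λ)) → 1 ≤ D₀ →
          (D₀ : ℝ) ≤ Real.exp (δ * Λ) → Pool.Agent.V1139.DC.Small ν K Λ
            ((Polynomial.aeval x R + ∑ i, Polynomial.aeval x (c i) * t i) / D₀) → (R, c) ∈ N := by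
  obtain ⟨ν, hν, h⟩ := digits_core fn fn_inj x hx r D
  refine ⟨ν, hν, fun T => ?_⟩
  obtain ⟨K, δ, hK, hδ, h⟩ := h T
  refine ⟨K, δ, hK, hδ, fun t ht Λ => ?_⟩
  obtain ⟨y, -, hy⟩ := h t ht Λ
  refine ⟨rel y, fun R hR => ?_, fun R c D₀ hR hc hRH hcH hD1 hD₀ hs => ?_⟩
  · have h1 : IsConst (fn R + ∑ i, fn ((0 : Fin r → ℤ[X]) i) * y i) := hR
    simp only [Pi.zero_apply, map_zero, zero_mul, Finset.sum_const_zero, add_zero] at h1
    exact fn_const h1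
  · obtain ⟨q, p, hq, hqp⟩ := hy (lf R c) D₀ (small_lf hD _ R c hR hc hRH hcH) hD1 hD₀ (by
      unfold rv
      rw [eval₂_lf]
      exact hs)
    rw [eval₂_lf] at hqp
    exact isConst_of_mul hq hqp

/-- **One number: the polynomials of small linear complexity, up to constants, are multiples of one
irreducible polynomial.** -/
theorem one_irr (x : ℝ) (hx : MeasT (x : ℂ)) (D : ℕ) :
    ∃ ν : ℝ, 0 < ν ∧ ∀ T : ℝ, ∃ K δ : ℝ, 0 < K ∧ 0 < δ ∧ ∀ t : ℝ, |t| ≤ T → ∀ Λ : ℝ,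
      ∃ F : ℤ[X][X], Irreducible F ∧ 0 < F.natDegree ∧ ∀ (P : ℤ[X][X]) (D₀ : ℕ),
        P.natDegree ≤ D → (∀ j, (P.coeff j).natDegree ≤ D) →
        (∀ j i, |((P.coeff j).coeff i : ℝ)| ≤ Real.exp (δ * Λ)) → 1 ≤ D₀ →
        (D₀ : ℝ) ≤ Real.exp (δ * Λ) → Pool.Agent.V1139.DC.Small ν K Λ
          (P.eval₂ (Polynomial.aeval x : ℤ[X] →ₐ[ℤ] ℝ).toRingHom t / D₀) →
        ∃ (q : ℕ) (p : ℤ), 1 ≤ q ∧ F ∣ (q : ℤ[X][X]) * P - (p : ℤ[X][X]) := by
  obtain ⟨ν, hν, h⟩ := digits_core fn fn_inj x hx 1 D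
  refine ⟨ν, hν, fun T => ?_⟩
  obtain ⟨K, δ, hK, hδ, h⟩ := h T
  refine ⟨K, δ, hK, hδ, fun t ht Λ => ?_⟩
  obtain ⟨y, -, hy⟩ := h (fun _ => t) (fun _ => ht) Λ
  obtain ⟨F, hF1, hF2, hF3⟩ := exists_irr (y 0)
  refine ⟨F, hF1, hF2, fun P D₀ h1 h2 h3 hD1 hD₀ hs => ?_⟩
  obtain ⟨q, p, hq, hqp⟩ := hy (toMv D P) D₀ (small_toMv D _ (Real.exp_pos _).le P h2 h3) hD1 hD₀
    (by
      unfold rv
      rw [eval₂_toMv _ D P h1]
      exact hs)
  rw [eval₂_toMv fn D P h1] at hqp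
  refine ⟨q, p, hq, hF3 _ ?_⟩
  have e : Polynomial.eval₂ fn (y 0) (p : ℤ[X][X]) = (p : AF) :=
    map_intCast (Polynomial.eval₂RingHom fn (y 0)) p
  rw [Polynomial.eval₂_sub, Polynomial.eval₂_mul, Polynomial.eval₂_natCast, e, hqp, sub_self]

/-- **One number: monomials** -/
theorem slope (x : ℝ) (hx : MeasT (x : ℂ)) (hx0 : x ≠ 0) (D : ℕ) :
    ∃ ν : ℝ, 0 < ν ∧ ∀ T : ℝ, 1 ≤ T → ∃ K δ : ℝ, 0 < K ∧ 0 < δ ∧ ∀ t : ℝ,
      T⁻¹ ≤ |t| → |t| ≤ T → ∀ Λ : ℝ, ∃ ρ : ℚ, ∀ (a b A : ℤ) (D₀ : ℕ), |a| ≤ D → |b| ≤ D → A ≠ 0 →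
          |(A : ℝ)| ≤ Real.exp (δ * Λ) → 1 ≤ D₀ → (D₀ : ℝ) ≤ Real.exp (δ * Λ) →
          Pool.Agent.V1139.DC.Small ν K Λ (A * (x ^ a * t ^ b) / D₀) → (a : ℚ) = ρ * b := by
  obtain ⟨ν, hν, h⟩ := mono x hx hx0 1 D
  refine ⟨ν, hν, fun T hT => ?_⟩
  obtain ⟨K, δ, hK, hδ, h⟩ := h T hT
  refine ⟨K, δ, hK, hδ, fun t ht1 ht2 Λ => ?_⟩
  obtain ⟨M, hM0, hM⟩ := h (fun _ => t) (fun _ => ⟨ht1, ht2⟩) Λ
  have key : ∀ a b a' b' : ℤ, (a, fun _ => b) ∈ M → (a', fun _ => b') ∈ M →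
      a * b' - a' * b = 0 := by
    intro a b a' b' h1 h2
    refine hM0 _ ?_
    have h3 := M.sub_mem (M.zsmul_mem h1 b') (M.zsmul_mem h2 b)
    have e : b' • ((a, fun _ => b) : ℤ × (Fin 1 → ℤ)) - b • ((a', fun _ => b') : ℤ × (Fin 1 → ℤ)) =
        (a * b' - a' * b, 0) := by
      refine Prod.ext ?_ ?_
      · simp only [Prod.fst_sub, Prod.smul_fst, smul_eq_mul]
        ring
      · funext i
        simp only [Prod.snd_sub, Prod.smul_snd, Pi.sub_apply, Pi.smul_apply, smul_eq_mul,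
          Pi.zero_apply]
        ring
    rwa [e] at h3
  by_cases hex : ∃ a₀ b₀ : ℤ, b₀ ≠ 0 ∧ (a₀, fun _ => b₀) ∈ M
  · obtain ⟨a₀, b₀, hb₀, hm⟩ := hex
    refine ⟨(a₀ : ℚ) / b₀, fun a b A D₀ ha hb hA0 hA hD1 hD₀ hs => ?_⟩
    have h1 : (a, fun _ => b) ∈ M := hM a (fun _ => b) A D₀ ha (fun _ => hb) hA0 hA hD1 hD₀ (by
      simpa using hs)
    have h2 := key a b a₀ b₀ h1 hm
    have hbQ : (b₀ : ℚ) ≠ 0 := by exact_mod_cast hb₀
    have h3 : (a : ℚ) * b₀ - a₀ * b = 0 := by exact_mod_cast h2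
    rw [div_mul_eq_mul_div, eq_div_iff hbQ]
    linarith
  · push Not at hex
    refine ⟨0, fun a b A D₀ ha hb hA0 hA hD1 hD₀ hs => ?_⟩
    have h1 : (a, fun _ => b) ∈ M := hM a (fun _ => b) A D₀ ha (fun _ => hb) hA0 hA hD1 hD₀ (by
      simpa using hs)
    have hb0 : b = 0 := by
      by_contra hne
      exact hex a b hne h1
    rw [hb0] at h1
    have h2 := hM0 a h1
    rw [h2]
    simp

end Pool.Agent.V1139.NA
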