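import Pool.Agent.V1139.NA.Rings
import Pool.Agent.V1139.NA.Lin

/-!
# Logarithms: rings, ideals and groups of exponents at one scale

Author: helper39.
-/

set_option autoImplicit false

namespace Pool.Agent.V1139.NA

open Pool.Agent.TH456.TM (MeasT measT_gauss)
open Pool.Agent.V11210.NA (AF fn fn_inj)
open scoped Polynomial

/-- a nonzero logarithm of a number with rational real and imaginary parts -/
def LogG (x : ℂ) : Prop := x ≠ 0 ∧ ∃ a b : ℚ, Complex.exp x = a + b * Complex.I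

lemma measT_logG (x : ℂ) (hx : LogG x) : MeasT x := by
  obtain ⟨hx0, a, b, hab⟩ := hx
  have h := measT_gauss x hx0 ⟨a.num * b.den, b.num * a.den⟩
    ⟨a.den * b.den, 0⟩ 1 (by
      intro h0
      have h1 := congrArg Zsqrtd.re h0
      simp at h1) (by simp) (by
      rw [hab, GaussianInt.toComplex_def', GaussianInt.toComplex_def']
      have ha : (a : ℂ) * a.den = a.num := by exact_mod_cast Rat.mul_den_eq_num a
      have hb : (b : ℂ) * b.den = b.num := by exact_mod_cast Rat.mul_den_eq_num b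
      push_cast
      linear_combination ((b.den : ℂ)) * ha + ((a.den : ℂ) * Complex.I) * hb)
  simpa using h

/-- a real number `x ≠ 0` such that `x` or `i x` is a logarithm of such a number -/
def RealLog (x : ℝ) : Prop := LogG x ∨ LogG (x * Complex.I)

lemma measT_realLog (x : ℝ) (hx : RealLog x) : MeasT (x : ℂ) := by
  rcases hx with hx | hx
  · exact measT_logG _ hx
  · obtain ⟨hx0, a, b, hab⟩ := hx
    have h := measT_gauss (x * Complex.I) hx0 ⟨a.num * b.den, b.num * a.den⟩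
      ⟨a.den * b.den, 0⟩ ⟨0, -1⟩ (by
        intro h0
        have h1 := congrArg Zsqrtd.re h0
        simp at h1) (by
        rw [GaussianInt.toComplex_def']
        simp) (by
        rw [hab, GaussianInt.toComplex_def', GaussianInt.toComplex_def']
        have ha : (a : ℂ) * a.den = a.num := by exact_mod_cast Rat.mul_den_eq_num a
        have hb : (b : ℂ) * b.den = b.num := by exact_mod_cast Rat.mul_den_eq_num b
        push_cast
        linear_combination ((b.den : ℂ)) * ha + ((a.den : ℂ) * Complex.I) * hb)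
    have h2 : GaussianInt.toComplex ⟨0, -1⟩ * ((x : ℂ) * Complex.I) = (x : ℂ) := by
      rw [GaussianInt.toComplex_def']
      push_cast
      have := Complex.I_mul_I
      linear_combination (-(x : ℂ)) * this
    rwa [h2] at h

lemma realLog_ne (x : ℝ) (hx : RealLog x) : x ≠ 0 := by
  rintro rfl
  rcases hx with hx | hx
  · exact hx.1 (by simp)
  · exact hx.1 (by simp)

/-- common constants -/
lemma unif {α : Type} (S : Finset α) (Q : α → ℝ → ℝ → Prop)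
    (hmono : ∀ a κ κ' c c', 0 < κ → κ ≤ κ' → 0 < c' → c' ≤ c → Q a κ c → Q a κ' c')
    (h : ∀ a ∈ S, ∃ κ c, 0 < κ ∧ 0 < c ∧ Q a κ c) :
    ∃ κ c, 0 < κ ∧ 0 < c ∧ ∀ a ∈ S, Q a κ c := by
  classical
  induction S using Finset.induction_on with
  | empty => exact ⟨1, 1, one_pos, one_pos, by simp⟩
  | insert a S _ ih =>
    obtain ⟨κ, c, hκ, hc, h1⟩ := ih fun b hb => h b (Finset.mem_insert_of_mem hb)
    obtain ⟨κ', c', hκ', hc', h2⟩ := h a (Finset.mem_insert_self _ _)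
    refine ⟨max κ κ', min c c', lt_max_of_lt_left hκ, lt_min hc hc', fun b hb => ?_⟩
    rcases Finset.mem_insert.1 hb with rfl | hb
    · exact hmono _ _ _ _ _ hκ' (le_max_right _ _) (lt_min hc hc') (min_le_right _ _) h2
    · exact hmono _ _ _ _ _ hκ (le_max_left _ _) (lt_min hc hc') (min_le_left _ _) (h1 b hb)

/-- the linear form `∑ b_i X_i` -/
noncomputable def lin {n : ℕ} (b : Fin n → ℤ) : MvPolynomial (Fin n) ℤ :=
  ∑ i, MvPolynomial.C (b i) * MvPolynomial.X i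

lemma eval₂_lin {K : Type} [CommRing K] {n : ℕ} (b : Fin n → ℤ) (v : Fin n → K) :
    (lin b).eval₂ (Int.castRingHom K) v = ∑ i, (b i : K) * v i := by
  unfold lin
  rw [MvPolynomial.eval₂_sum]
  refine Finset.sum_congr rfl fun i _ => ?_
  rw [MvPolynomial.eval₂_mul, MvPolynomial.eval₂_C, MvPolynomial.eval₂_X, eq_intCast]

lemma toQ_lin {n : ℕ} (b : Fin n → ℤ) :
    toQ (lin b) = ∑ i, MvPolynomial.C (b i : ℚ) * MvPolynomial.X i := by
  unfold toQ lin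
  rw [map_sum]
  refine Finset.sum_congr rfl fun i _ => ?_
  rw [map_mul, MvPolynomial.map_C, MvPolynomial.map_X, eq_intCast]

/-- the near relations -/
def NearSet {n : ℕ} (lam : Fin n → ℂ) (D : ℕ) (κ c H : ℝ) : Set (MvPolynomial (Fin n) ℤ) :=
  {P | Low D H P ∧ ‖P.eval₂ (Int.castRingHom ℂ) lam‖ < c * H ^ (-κ)}

/-- the polynomials of small linear complexity -/
def DigitSet {n : ℕ} (lam : Fin n → ℝ) (D : ℕ) (ν K Λ : ℝ) : Set (MvPolynomial (Fin n) ℤ) :=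
  {P | ∃ E : ℕ, 1 ≤ E ∧ (E : ℝ) ≤ Real.exp (ν * Λ) ∧ Low D (Real.exp (ν * Λ)) P ∧
    Pool.Agent.V1139.DC.Small ν K Λ (P.eval₂ (Int.castRingHom ℝ) lam / E)}

theorem near_ideal {n : ℕ} (lam : Fin n → ℂ) (S : Finset (Fin n → ℤ))
    (hS : ∀ b ∈ S, LogG (∑ i, (b i : ℂ) * lam i)) (D : ℕ) :
    ∃ κ c : ℝ, 0 < κ ∧ 0 < c ∧ ∀ b ∈ S, ∀ H : ℝ, 1 ≤ H → ∀ f : ℚ[X],
      Polynomial.aeval (∑ i, MvPolynomial.C (b i : ℚ) * MvPolynomial.X i :
        MvPolynomial (Fin n) ℚ) f ∈ Ideal.span (toQ '' NearSet lam D κ c H) → f = 0 := by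
  refine unif S (fun b κ c => ∀ H : ℝ, 1 ≤ H → ∀ f : ℚ[X],
      Polynomial.aeval (∑ i, MvPolynomial.C (b i : ℚ) * MvPolynomial.X i :
        MvPolynomial (Fin n) ℚ) f ∈ Ideal.span (toQ '' NearSet lam D κ c H) → f = 0) ?_ ?_
  · intro b κ κ' c c' _ h1 h2 h3 h H hH f hf
    refine h H hH f (Ideal.span_mono (Set.image_mono ?_) hf)
    rintro P ⟨hP, hPs⟩
    have hH0 : 0 < H := by linarith
    refine ⟨hP, hPs.trans_le ?_⟩
    have h4 : H ^ (-κ') ≤ H ^ (-κ) := Real.rpow_le_rpow_of_exponent_le hH (by linarith)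
    have h5 : 0 ≤ H ^ (-κ') := by positivity
    exact mul_le_mul h3 h4 h5 (by linarith)
  · intro b hb
    have hm : MeasT ((lin b).eval₂ (Int.castRingHom ℂ) lam) := by
      rw [eval₂_lin]
      exact measT_logG _ (hS b hb)
    obtain ⟨κ, c, hκ, hc, h⟩ := near_point lam (lin b) hm D
    refine ⟨κ, c, hκ, hc, fun H hH f hf => ?_⟩
    obtain ⟨y, hy1, hy2⟩ := h H hH
    rw [← toQ_lin] at hf
    exact ideal_of_point _ (lin b) y hy1 (fun P hP => hy2 P hP.1 hP.2) f hf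

lemma small_mono {ν ν' K K' Λ x : ℝ} (hK : 0 < K) (hKK : K ≤ K') (hν : ν' ≤ ν)
    (h : Pool.Agent.V1139.DC.Small ν' K' Λ x) :
    0 < Λ ∧ Pool.Agent.V1139.DC.Small ν K Λ x := by
  obtain ⟨b, L, hb, h1, h2, h3⟩ := h
  have hlb : 0 < Real.log b := Real.log_pos (by exact_mod_cast (by omega : 1 < b))
  have h4 : K * Real.log b ≤ Λ := le_trans (mul_le_mul_of_nonneg_right hKK hlb.le) h1
  have hΛ : 0 < Λ := lt_of_lt_of_le (by positivity) h4
  exact ⟨hΛ, b, L, hb, h4, h2, lt_of_lt_of_le h3 (mul_le_mul_of_nonneg_right hν hΛ.le)⟩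

lemma digitSet_mono {n : ℕ} (lam : Fin n → ℝ) (D : ℕ) {ν ν' δ K K' Λ : ℝ} (hK : 0 < K)
    (hKK : K ≤ K') (hν : ν' ≤ ν) (hδ : ν' ≤ δ) (P : MvPolynomial (Fin n) ℤ)
    (hP : P ∈ DigitSet lam D ν' K' Λ) : ∃ E : ℕ, 1 ≤ E ∧ (E : ℝ) ≤ Real.exp (δ * Λ) ∧
      Low D (Real.exp (δ * Λ)) P ∧
      Pool.Agent.V1139.DC.Small ν K Λ (P.eval₂ (Int.castRingHom ℝ) lam / E) := by
  obtain ⟨E, hE1, hE, hP, hs⟩ := hP
  obtain ⟨hΛ, hs'⟩ := small_mono hK hKK hν hs
  have h1 : Real.exp (ν' * Λ) ≤ Real.exp (δ * Λ) :=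
    Real.exp_le_exp.2 (mul_le_mul_of_nonneg_right hδ hΛ.le)
  exact ⟨E, hE1, hE.trans h1, ⟨hP.1, fun m => (hP.2 m).trans h1⟩, hs'⟩

theorem digit_ring {n : ℕ} (lam : Fin n → ℝ) (S : Finset (Fin n → ℤ))
    (hS : ∀ b ∈ S, RealLog (∑ i, (b i : ℝ) * lam i)) (D : ℕ) :
    ∃ K ν : ℝ, 0 < K ∧ 0 < ν ∧ ∀ b ∈ S, ∀ Λ : ℝ, ∀ f : ℚ[X],
      Polynomial.aeval (∑ i, MvPolynomial.C (b i : ℚ) * MvPolynomial.X i :
        MvPolynomial (Fin n) ℚ) f ∈ Algebra.adjoin ℚ (toQ '' DigitSet lam D ν K Λ) →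
        f.natDegree = 0 := by
  refine unif S (fun b K ν => ∀ Λ : ℝ, ∀ f : ℚ[X],
      Polynomial.aeval (∑ i, MvPolynomial.C (b i : ℚ) * MvPolynomial.X i :
        MvPolynomial (Fin n) ℚ) f ∈ Algebra.adjoin ℚ (toQ '' DigitSet lam D ν K Λ) →
        f.natDegree = 0) ?_ ?_
  · intro b K K' ν ν' hK h1 h2 h3 h Λ f hf
    refine h Λ f (Algebra.adjoin_mono (Set.image_mono ?_) hf)
    intro P hP
    exact digitSet_mono lam D hK h1 h3 h3 P hP
  · intro b hb
    have hm : MeasT (((lin b).eval₂ (Int.castRingHom ℝ) lam : ℝ) : ℂ) := by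
      rw [eval₂_lin]
      exact measT_realLog _ (hS b hb)
    obtain ⟨ν, K, δ, hν, hK, hδ, h⟩ := digit_point lam (lin b) hm D
    refine ⟨K, min ν δ, hK, lt_min hν hδ, fun Λ f hf => ?_⟩
    obtain ⟨y, hy1, hy2⟩ := h Λ
    rw [← toQ_lin] at hf
    refine ring_of_point _ (lin b) y hy1 (fun P hP => ?_) f hf
    obtain ⟨E, hE1, hE, hP', hs⟩ := digitSet_mono lam D hK le_rfl (min_le_left ν δ)
      (min_le_right ν δ) P hP
    exact hy2 P E hP' hE1 hE hs

/-- the exponents of monomials of small linear complexity -/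
def ExpSet {n : ℕ} (lam : Fin n → ℝ) (D : ℕ) (ν K Λ : ℝ) : Set (Fin n → ℤ) :=
  {b | (∀ i, |b i| ≤ D) ∧ ∃ (A : ℤ) (E : ℕ), A ≠ 0 ∧ |(A : ℝ)| ≤ Real.exp (ν * Λ) ∧ 1 ≤ E ∧
    (E : ℝ) ≤ Real.exp (ν * Λ) ∧
    Pool.Agent.V1139.DC.Small ν K Λ (A * (∏ i, lam i ^ b i) / E)}

theorem mono_group {m : ℕ} (lam : Fin (m + 1) → ℝ) (h0 : ∀ i, lam i ≠ 0) (D : ℕ) :
    ∃ K ν : ℝ, 0 < K ∧ 0 < ν ∧ ∀ Λ : ℝ, ∃ M : AddSubgroup (Fin (m + 1) → ℤ),
      ExpSet lam D ν K Λ ⊆ M ∧ ∀ i, RealLog (lam i) → ∀ k : ℤ, Pi.single i k ∈ M → k = 0 := by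
  classical
  obtain ⟨K, ν, hK, hν, h⟩ := unif (Finset.univ.filter fun i => RealLog (lam i))
    (fun i K ν => ∀ Λ : ℝ, ∃ M : AddSubgroup (Fin (m + 1) → ℤ),
      ExpSet lam D ν K Λ ⊆ M ∧ ∀ k : ℤ, Pi.single i k ∈ M → k = 0) (by
    intro i K K' ν ν' hK h1 h2 h3 h Λ
    obtain ⟨M, hM, hM'⟩ := h Λ
    refine ⟨M, fun b hb => hM ?_, hM'⟩
    obtain ⟨hb, A, E, hA0, hA, hE1, hE, hs⟩ := hb
    obtain ⟨hΛ, hs'⟩ := small_mono hK h1 h3 hs
    have h4 : Real.exp (ν' * Λ) ≤ Real.exp (ν * Λ) :=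
      Real.exp_le_exp.2 (mul_le_mul_of_nonneg_right h3 hΛ.le)
    exact ⟨hb, A, E, hA0, hA.trans h4, hE1, hE.trans h4, hs'⟩) (by
    intro i hi
    rw [Finset.mem_filter] at hi
    obtain ⟨ν, hν, h⟩ := mono (lam i) (measT_realLog _ hi.2) (h0 i) m D
    obtain ⟨T, hT⟩ : ∃ T : ℝ, T = 1 + ∑ i, (|lam i| + |lam i|⁻¹) := ⟨_, rfl⟩
    have hTi : ∀ i, |lam i| + |lam i|⁻¹ ≤ T - 1 := by
      intro i
      have h1 := Finset.single_le_sum (f := fun i => |lam i| + |lam i|⁻¹)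
        (fun i _ => by positivity) (Finset.mem_univ i)
      rw [hT]
      linarith
    have hT1 : 1 ≤ T := by
      have := hTi i
      have h2 : 0 ≤ |lam i| + |lam i|⁻¹ := by positivity
      linarith
    obtain ⟨K, δ, hK, hδ, h⟩ := h T hT1
    refine ⟨K, min ν δ, hK, lt_min hν hδ, fun Λ => ?_⟩
    obtain ⟨M, hM0, hM⟩ := h (fun j => lam (i.succAbove j)) (fun j => by
      have h1 := hTi (i.succAbove j)
      have h2 : 0 < |lam (i.succAbove j)| := abs_pos.2 (h0 _)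
      have h3 : 0 < |lam (i.succAbove j)|⁻¹ := by positivity
      refine ⟨?_, by linarith⟩
      rw [inv_le_comm₀ (by linarith) h2]
      linarith) Λ
    let φ : (Fin (m + 1) → ℤ) →+ ℤ × (Fin m → ℤ) :=
      { toFun := fun b => (b i, fun j => b (i.succAbove j))
        map_zero' := rfl
        map_add' := fun _ _ => rfl }
    refine ⟨M.comap φ, fun b hb => ?_, fun k hk => ?_⟩
    · obtain ⟨hb, A, E, hA0, hA, hE1, hE, hs⟩ := hb
      obtain ⟨hΛ, hs'⟩ := small_mono hK le_rfl (min_le_left ν δ) hs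
      have h4 : Real.exp (min ν δ * Λ) ≤ Real.exp (δ * Λ) :=
        Real.exp_le_exp.2 (mul_le_mul_of_nonneg_right (min_le_right ν δ) hΛ.le)
      show (b i, fun j => b (i.succAbove j)) ∈ M
      refine hM _ _ A E (hb i) (fun j => hb _) hA0 (hA.trans h4) hE1 (hE.trans h4) ?_
      rw [← Fin.prod_univ_succAbove (fun i => lam i ^ b i) i]
      exact hs'
    · have h1 : ((Pi.single i k : Fin (m + 1) → ℤ) i,
          fun j => (Pi.single i k : Fin (m + 1) → ℤ) (i.succAbove j)) ∈ M := hk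
      rw [Pi.single_eq_same] at h1
      have h2 : (fun j => (Pi.single i k : Fin (m + 1) → ℤ) (i.succAbove j)) = 0 := by
        funext j
        rw [Pi.single_eq_of_ne (Fin.succAbove_ne i j)]
        rfl
      rw [h2] at h1
      exact hM0 k h1)
  refine ⟨K, ν, hK, hν, fun Λ => ?_⟩
  choose! M hM hM' using fun i hi => h i hi Λ
  refine ⟨⨅ i ∈ (Finset.univ.filter fun i => RealLog (lam i)), M i, fun b hb => ?_,
    fun i hi k hk => ?_⟩
  · show b ∈ (⨅ i ∈ (Finset.univ.filter fun i => RealLog (lam i)), M i :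
      AddSubgroup (Fin (m + 1) → ℤ))
    rw [AddSubgroup.mem_iInf]
    intro i
    rw [AddSubgroup.mem_iInf]
    intro hi
    exact hM i hi hb
  · have hi' : i ∈ (Finset.univ.filter fun i => RealLog (lam i)) := by
      rw [Finset.mem_filter]
      exact ⟨Finset.mem_univ _, hi⟩
    rw [AddSubgroup.mem_iInf] at hk
    have h1 := hk i
    rw [AddSubgroup.mem_iInf] at h1
    exact hM' i hi' k (h1 hi')

/-- two logarithms: one slope, different from `0` -/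
theorem two_logs (lam : Fin 2 → ℝ) (h : ∀ i, RealLog (lam i)) (D : ℕ) :
    ∃ K ν : ℝ, 0 < K ∧ 0 < ν ∧ ∀ Λ : ℝ, ∃ ρ : ℚ, ρ ≠ 0 ∧ ∀ b ∈ ExpSet lam D ν K Λ,
      (b 0 : ℚ) = ρ * b 1 := by
  obtain ⟨K, ν, hK, hν, h1⟩ := mono_group lam (fun i => realLog_ne _ (h i)) D
  refine ⟨K, ν, hK, hν, fun Λ => ?_⟩
  obtain ⟨M, hM, hM'⟩ := h1 Λ
  have key : ∀ b ∈ M, ∀ i j : Fin 2, i ≠ j → b j = 0 → b i = 0 := by
    intro b hb i j hij hj
    refine hM' i (h i) (b i) ?_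
    have e : Pi.single i (b i) = b := by
      funext k
      by_cases hk : k = i
      · subst hk; simp
      · have : k = j := by omega
        rw [Pi.single_eq_of_ne hk, this, hj]
    rw [e]
    exact hb
  by_cases hex : ∃ b₀ ∈ ExpSet lam D ν K Λ, b₀ ≠ 0
  · obtain ⟨b₀, hb₀, hne⟩ := hex
    have hm := hM hb₀
    have n1 : b₀ 1 ≠ 0 := by
      intro h0
      apply hne
      funext k
      fin_cases k
      · exact key b₀ hm 0 1 (by decide) h0
      · exact h0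
    have n0 : b₀ 0 ≠ 0 := by
      intro h0
      exact n1 (key b₀ hm 1 0 (by decide) h0)
    refine ⟨(b₀ 0 : ℚ) / b₀ 1, div_ne_zero (by exact_mod_cast n0) (by exact_mod_cast n1),
      fun b hb => ?_⟩
    have h2 : b₀ 1 • b - b 1 • b₀ ∈ M := M.sub_mem (M.zsmul_mem (hM hb) _) (M.zsmul_mem hm _)
    have h3 := key _ h2 0 1 (by decide) (by
      simp only [Pi.sub_apply, Pi.smul_apply, smul_eq_mul]
      ring)
    simp only [Pi.sub_apply, Pi.smul_apply, smul_eq_mul] at h3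
    have hQ : (b₀ 1 : ℚ) ≠ 0 := by exact_mod_cast n1
    have h4 : (b₀ 1 : ℚ) * b 0 - b 1 * b₀ 0 = 0 := by exact_mod_cast h3
    rw [div_mul_eq_mul_div, eq_div_iff hQ]
    linarith
  · push Not at hex
    refine ⟨1, one_ne_zero, fun b hb => ?_⟩
    rw [hex b hb]
    simp

end Pool.Agent.V1139.NA
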