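import Pool.Agent.V1139.NA.Alg
import Pool.Agent.V1139.NA.LogRings

/-!
# Rings generated by polynomials near algebraic numbers; families

Author: helper39.
-/

set_option autoImplicit false

namespace Pool.Agent.V1139.NA

open Pool.Agent.TH456.TM (σx MeasT σx_coeff)
open Pool.Agent.V11210.NA (near_core val box mem_box AF fn fn_inj)
open scoped Polynomial

/-- algebraic constants -/
def AlgC (z : AF) : Prop := ∃ m : ℤ[X], m ≠ 0 ∧ m.eval₂ (Int.castRingHom AF) z = 0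

lemma algC_iff (z : AF) : AlgC z ↔ IsAlgebraic ℤ z := by
  have e : algebraMap ℤ AF = Int.castRingHom AF := RingHom.ext_int _ _
  constructor
  · rintro ⟨m, hm, h⟩
    exact ⟨m, hm, by rw [Polynomial.aeval_def, e]; exact h⟩
  · rintro ⟨m, hm, h⟩
    exact ⟨m, hm, by rw [Polynomial.aeval_def, e] at h; exact h⟩

lemma algC_add {x y : AF} (hx : AlgC x) (hy : AlgC y) : AlgC (x + y) := by
  rw [algC_iff] at *
  exact hx.add hy

lemma algC_mul {x y : AF} (hx : AlgC x) (hy : AlgC y) : AlgC (x * y) := by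
  rw [algC_iff] at *
  exact hx.mul hy

lemma algC_int (n : ℤ) : AlgC (n : AF) :=
  ⟨Polynomial.X - Polynomial.C n, Polynomial.X_sub_C_ne_zero n, by simp⟩

lemma algC_neg {x : AF} (hx : AlgC x) : AlgC (-x) := by
  have h := algC_mul (algC_int (-1)) hx
  simpa using h

lemma algC_sub {x y : AF} (hx : AlgC x) (hy : AlgC y) : AlgC (x - y) := by
  rw [sub_eq_add_neg]
  exact algC_add hx (algC_neg hy)

lemma algC_rat (q : ℚ) : AlgC (q : AF) := by
  have := charZero_AF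
  refine ⟨Polynomial.C (q.den : ℤ) * Polynomial.X - Polynomial.C q.num, ?_, ?_⟩
  · intro h
    have h1 := congrArg (fun p : ℤ[X] => p.coeff 1) h
    simp only [Polynomial.coeff_sub, Polynomial.coeff_C_mul, Polynomial.coeff_X_one, mul_one,
      Polynomial.coeff_zero] at h1
    rw [Polynomial.coeff_C_of_ne_zero one_ne_zero, sub_zero] at h1
    exact q.den_nz (by exact_mod_cast h1)
  · rw [Polynomial.eval₂_sub, Polynomial.eval₂_mul, Polynomial.eval₂_C, Polynomial.eval₂_X,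
      Polynomial.eval₂_C, eq_intCast, eq_intCast, Int.cast_natCast]
    have h3 : (q.den : ℚ) * q = q.num := Rat.den_mul_eq_num q
    have h4 : ((q.den : ℚ) : AF) * (q : AF) = ((q.num : ℚ) : AF) := by
      rw [← Rat.cast_mul, h3]
    rw [sub_eq_zero]
    simpa using h4

lemma fn_eval (f : ℤ[X]) : fn f = f.eval₂ (Int.castRingHom AF) (fn Polynomial.X) := by
  have e : (Polynomial.eval₂RingHom (Int.castRingHom AF) (fn Polynomial.X)) = fn := by
    refine Polynomial.ringHom_ext (fun a => ?_) ?_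
    · rw [Polynomial.coe_eval₂RingHom, Polynomial.eval₂_C]
      have : (Polynomial.C a : ℤ[X]) = (a : ℤ[X]) := by simp
      rw [this, map_intCast]
      simp
    · rw [Polynomial.coe_eval₂RingHom, Polynomial.eval₂_X]
  have h2 := congrArg (fun k : ℤ[X] →+* AF => k f) e
  exact h2.symm

lemma trans_fnX : Transcendental ℤ (fn Polynomial.X) := by
  rw [transcendental_iff]
  intro p hp
  have e : algebraMap ℤ AF = Int.castRingHom AF := RingHom.ext_int _ _
  rw [Polynomial.aeval_def, e, ← fn_eval] at hp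
  exact fn_inj (by rw [hp, map_zero])

lemma fn_algC {R : ℤ[X]} (h : AlgC (fn R)) : R.natDegree = 0 := by
  by_contra hne
  rw [algC_iff] at h
  have h1 := trans_fnX.aeval R hne (mem_nonZeroDivisors_of_ne_zero (by
    intro h0
    rw [Polynomial.leadingCoeff_eq_zero] at h0
    rw [h0] at hne
    simp at hne))
  have e : algebraMap ℤ AF = Int.castRingHom AF := RingHom.ext_int _ _
  rw [Polynomial.aeval_def, e, ← fn_eval] at h1
  exact h1 h

/-- the ring -/
theorem ring_alg {n : ℕ} (N : Set (MvPolynomial (Fin n) ℤ)) (G : MvPolynomial (Fin n) ℤ)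
    (y : Fin n → AF) (hG : G.eval₂ (Int.castRingHom AF) y = fn Polynomial.X)
    (hN : ∀ P ∈ N, AlgC (P.eval₂ (Int.castRingHom AF) y)) (f : ℚ[X])
    (hf : Polynomial.aeval (toQ G) f ∈ Algebra.adjoin ℚ (toQ '' N)) : f.natDegree = 0 := by
  have := charZero_AF
  have h1 : ∀ Q ∈ Algebra.adjoin ℚ (toQ '' N), AlgC (Q.eval₂ (Rat.castHom AF) y) := by
    intro Q hQ
    induction hQ using Algebra.adjoin_induction with
    | mem Q hQ =>
      obtain ⟨P, hP, rfl⟩ := hQ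
      rw [eval₂_toQ]
      exact hN P hP
    | algebraMap a =>
      rw [MvPolynomial.algebraMap_eq, MvPolynomial.eval₂_C]
      exact algC_rat a
    | add P Q _ _ h1 h2 =>
      rw [MvPolynomial.eval₂_add]
      exact algC_add h1 h2
    | mul P Q _ _ h1 h2 =>
      rw [MvPolynomial.eval₂_mul]
      exact algC_mul h1 h2
  have ha := h1 _ hf
  rw [eval₂_aeval, eval₂_toQ, hG] at ha
  obtain ⟨b, hb, hg⟩ := IsLocalization.integerNormalization_spec (nonZeroDivisors ℤ) f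
  set g := IsLocalization.integerNormalization (nonZeroDivisors ℤ) f with hg'
  have hb0 : b ≠ 0 := nonZeroDivisors.ne_zero hb
  have h2 : fn g = (b : AF) * f.eval₂ (Rat.castHom AF) (fn Polynomial.X) := by
    have h3 : fn g = (g.map (algebraMap ℤ ℚ)).eval₂ (Rat.castHom AF) (fn Polynomial.X) := by
      rw [Polynomial.eval₂_map, fn_eval]
      congr 1
      exact RingHom.ext_int _ _
    rw [h3, hg, Algebra.smul_def, Polynomial.eval₂_mul]
    congr 1
    have h4 : (algebraMap ℤ ℚ[X]) b = Polynomial.C ((b : ℤ) : ℚ) := by simp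
    rw [h4, Polynomial.eval₂_C]
    simp
  have h3 : AlgC (fn g) := by
    rw [h2]
    exact algC_mul (algC_int b) ha
  have h4 := fn_algC h3
  have h5 : (g.map (algebraMap ℤ ℚ)).natDegree = f.natDegree := by
    have h6 : (b • f : ℚ[X]) = Polynomial.C ((b : ℤ) : ℚ) * f := by
      rw [Algebra.smul_def]
      congr 1
    rw [hg, h6]
    exact Polynomial.natDegree_C_mul (by exact_mod_cast hb0)
  rw [← h5]
  refine Nat.eq_zero_of_le_zero (Polynomial.natDegree_map_le.trans h4.le)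

/-- the polynomials near algebraic numbers -/
def NearAlg {n : ℕ} (lam : Fin n → ℂ) (D d : ℕ) (κ c H : ℝ) : Set (MvPolynomial (Fin n) ℤ) :=
  {P | Low D H P ∧ ∃ (m : ℤ[X]) (α : ℂ), m ≠ 0 ∧ m.natDegree ≤ d ∧
    (∀ i, |(m.coeff i : ℝ)| ≤ H) ∧ m.eval₂ (Int.castRingHom ℂ) α = 0 ∧
    ‖P.eval₂ (Int.castRingHom ℂ) lam - α‖ < c * H ^ (-κ)}

/-- one point for each height -/
theorem alg_point_G {n : ℕ} (lam : Fin n → ℂ) (G : MvPolynomial (Fin n) ℤ)
    (hG : MeasT (G.eval₂ (Int.castRingHom ℂ) lam)) (D d : ℕ) :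
    ∃ κ c : ℝ, 0 < κ ∧ 0 < c ∧ ∀ H : ℝ, 1 ≤ H → ∃ y : Fin n → AF,
      G.eval₂ (Int.castRingHom AF) y = fn Polynomial.X ∧
      ∀ P ∈ NearAlg lam D d κ c H, AlgC (P.eval₂ (Int.castRingHom AF) y) := by
  obtain ⟨B, hB1, hB⟩ := exists_low G
  obtain ⟨D', hD'⟩ : ∃ D', D' = max D (G.totalDegree + 1) := ⟨_, rfl⟩
  obtain ⟨κ, hκ, h⟩ := alg_point' fn fn_inj _ hG n D' d B
  obtain ⟨c, hc, h⟩ := h (∑ i, ‖lam i‖)
  refine ⟨κ, c, hκ, hc, fun H hH => ?_⟩
  obtain ⟨y, hy1, hy2⟩ := h lam (fun i => Finset.single_le_sum (f := fun i => ‖lam i‖)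
    (fun i _ => norm_nonneg _) (Finset.mem_univ i)) H hH
  refine ⟨y, ?_, fun P hP => ?_⟩
  · have h1 := hy1 (relG G) (small_relG (by omega) hB1 ⟨hB.1.trans (by omega), hB.2⟩) (by
        rw [val, eval₂_relG]
        have h2 : σx (G.eval₂ (Int.castRingHom ℂ) lam) Polynomial.X =
            G.eval₂ (Int.castRingHom ℂ) lam := by simp [σx]
        rw [h2, sub_self])
    rw [eval₂_relG, sub_eq_zero] at h1
    exact h1
  · obtain ⟨hP, m, α, hm0, hmd, hmH, hmα, hα⟩ := hP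
    have h1 := hy2 (P.map (Polynomial.C : ℤ →+* ℤ[X])) (small_map (by linarith)
      (⟨hP.1.trans (by omega), hP.2⟩ : Low D' H P)) m α hmd hmH hmα (by
        rw [val, eval₂_mapC]
        exact hα)
    rw [eval₂_mapC] at h1
    exact ⟨m, hm0, h1⟩

theorem near_alg_ring {n : ℕ} (lam : Fin n → ℂ) (S : Finset (Fin n))
    (hS : ∀ i ∈ S, MeasT (lam i)) (D d : ℕ) :
    ∃ κ c : ℝ, 0 < κ ∧ 0 < c ∧ ∀ i ∈ S, ∀ H : ℝ, 1 ≤ H → ∀ f : ℚ[X],
      Polynomial.aeval (MvPolynomial.X i : MvPolynomial (Fin n) ℚ) f ∈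
        Algebra.adjoin ℚ (toQ '' NearAlg lam D d κ c H) → f.natDegree = 0 := by
  refine unif S (fun i κ c => ∀ H : ℝ, 1 ≤ H → ∀ f : ℚ[X],
      Polynomial.aeval (MvPolynomial.X i : MvPolynomial (Fin n) ℚ) f ∈
        Algebra.adjoin ℚ (toQ '' NearAlg lam D d κ c H) → f.natDegree = 0) ?_ ?_
  · intro b κ κ' c c' _ h1 h2 h3 h H hH f hf
    refine h H hH f (Algebra.adjoin_mono (Set.image_mono ?_) hf)
    rintro P ⟨hP, m, α, hm0, hmd, hmH, hmα, hα⟩
    have hH0 : 0 < H := by linarith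
    refine ⟨hP, m, α, hm0, hmd, hmH, hmα, hα.trans_le ?_⟩
    have h4 : H ^ (-κ') ≤ H ^ (-κ) := Real.rpow_le_rpow_of_exponent_le hH (by linarith)
    have h5 : 0 ≤ H ^ (-κ') := by positivity
    exact mul_le_mul h3 h4 h5 (by linarith)
  · intro i hi
    obtain ⟨κ, c, hκ, hc, h⟩ := alg_point_G lam (MvPolynomial.X i) (by
      rw [MvPolynomial.eval₂_X]
      exact hS i hi) D d
    refine ⟨κ, c, hκ, hc, fun H hH f hf => ?_⟩
    obtain ⟨y, hy1, hy2⟩ := h H hH
    have e : toQ (MvPolynomial.X i : MvPolynomial (Fin n) ℤ) = MvPolynomial.X i := by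
      unfold toQ
      rw [MvPolynomial.map_X]
    rw [← e] at hf
    exact ring_alg _ _ y hy1 hy2 f hf

/-- the numbers `a t + R(x)`, `a ≠ 0`, `R(0) = 0`, near algebraic numbers -/
def NearLin (x t : ℂ) (D d : ℕ) (κ c H : ℝ) : Set (ℤ × ℤ[X]) :=
  {v | v.1 ≠ 0 ∧ |(v.1 : ℝ)| ≤ H ∧ v.2.coeff 0 = 0 ∧ v.2.natDegree ≤ D ∧
    (∀ i, |(v.2.coeff i : ℝ)| ≤ H) ∧ ∃ (m : ℤ[X]) (α : ℂ), m ≠ 0 ∧ m.natDegree ≤ d ∧
      (∀ i, |(m.coeff i : ℝ)| ≤ H) ∧ m.eval₂ (Int.castRingHom ℂ) α = 0 ∧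
      ‖v.1 * t + Polynomial.aeval x v.2 - α‖ < c * H ^ (-κ)}

theorem one_line (x : ℂ) (hx : MeasT x) (D d : ℕ) : ∃ κ : ℝ, 0 < κ ∧ ∀ T : ℝ, ∃ c : ℝ, 0 < c ∧
    ∀ t : ℂ, ‖t‖ ≤ T → ∀ H : ℝ, 1 ≤ H → ∀ v ∈ NearLin x t D d κ c H,
      ∀ w ∈ NearLin x t D d κ c H, w.1 • v.2 = v.1 • w.2 := by
  obtain ⟨κ, hκ, h⟩ := alg_point' fn fn_inj x hx 1 (max D 1) d 1
  refine ⟨κ, hκ, fun T => ?_⟩
  obtain ⟨c, hc, h⟩ := h T
  refine ⟨c, hc, fun t ht H hH => ?_⟩
  obtain ⟨y, -, hy⟩ := h (fun _ => t) (fun _ => ht) H hH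
  have key : ∀ v ∈ NearLin x t D d κ c H, AlgC (fn v.2 + v.1 * y 0) := by
    rintro ⟨a, R⟩ ⟨ha, haH, hR0, hRD, hRH, m, α, hm0, hmd, hmH, hmα, hα⟩
    have h1 := hy (lf R (fun _ => Polynomial.C a)) (small_lf (le_max_right _ _) H R _
      (hRD.trans (le_max_left _ _)) (fun _ => by simp) hRH (fun _ k => by
        rw [Polynomial.coeff_C]
        split_ifs
        · exact haH
        · simp; linarith)) m α hmd hmH hmα (by
        rw [val, eval₂_lf]
        have e : σx x R + ∑ _i : Fin 1, σx x (Polynomial.C a) * t = a * t + Polynomial.aeval x R := by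
          simp [σx, add_comm]
        rw [e]
        exact hα)
    rw [eval₂_lf] at h1
    refine ⟨m, hm0, ?_⟩
    have e : fn R + ∑ i : Fin 1, fn (Polynomial.C a) * y i = fn R + a * y 0 := by
      rw [Fin.sum_univ_one]
      congr 2
      rw [show (Polynomial.C a : ℤ[X]) = (a : ℤ[X]) by simp, map_intCast]
    rw [e] at h1
    exact h1
  intro v hv w hw
  have h1 := algC_sub (algC_mul (algC_int w.1) (key v hv)) (algC_mul (algC_int v.1) (key w hw))
  have e : (w.1 : AF) * (fn v.2 + v.1 * y 0) - v.1 * (fn w.2 + w.1 * y 0) =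
      fn (w.1 • v.2 - v.1 • w.2) := by
    rw [map_sub, map_zsmul, map_zsmul, zsmul_eq_mul, zsmul_eq_mul]
    ring
  rw [e] at h1
  have h2 := fn_algC h1
  have h3 : (w.1 • v.2 - v.1 • w.2).coeff 0 = 0 := by
    rw [Polynomial.coeff_sub, Polynomial.coeff_smul, Polynomial.coeff_smul, hv.2.2.1, hw.2.2.1]
    simp
  have h4 : w.1 • v.2 - v.1 • w.2 = 0 := by
    rw [Polynomial.eq_C_of_natDegree_eq_zero h2, h3, Polynomial.C_0]
  exact sub_eq_zero.1 h4

end Pool.Agent.V1139.NA
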