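import Pool.Agent.V1139.NA.Rings

/-!
# Polynomials whose values are near algebraic numbers

Author: helper39.
-/

set_option autoImplicit false

namespace Pool.Agent.V1139.NA

open Pool.Agent.TH456.TM (σx MeasT σx_coeff)
open Pool.Agent.V11210.NA (near_core val box mem_box)
open scoped Polynomial

lemma coeff_mul_le (f g : ℤ[X]) (D : ℕ) (H₁ H₂ : ℝ) (hf : f.natDegree ≤ D) (hH₁ : 0 ≤ H₁)
    (hH₂ : 0 ≤ H₂) (h1 : ∀ i, |(f.coeff i : ℝ)| ≤ H₁) (h2 : ∀ i, |(g.coeff i : ℝ)| ≤ H₂) (k : ℕ) :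
    |((f * g).coeff k : ℝ)| ≤ ((D : ℝ) + 1) * (H₁ * H₂) := by
  rw [Polynomial.coeff_mul]
  push_cast
  refine (Finset.abs_sum_le_sum_abs _ _).trans ?_
  rw [← Finset.sum_filter_add_sum_filter_not _ (fun x : ℕ × ℕ => x.1 ≤ D)]
  have e2 : ∑ x ∈ (Finset.HasAntidiagonal.antidiagonal k).filter (fun x : ℕ × ℕ => ¬ x.1 ≤ D),
      |(f.coeff x.1 : ℝ) * (g.coeff x.2 : ℝ)| = 0 := by
    refine Finset.sum_eq_zero fun x hx => ?_
    rw [Finset.mem_filter] at hx
    rw [Polynomial.coeff_eq_zero_of_natDegree_lt (by omega : f.natDegree < x.1)]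
    simp
  rw [e2, add_zero]
  have e1 : ((Finset.HasAntidiagonal.antidiagonal k).filter (fun x : ℕ × ℕ => x.1 ≤ D)).card ≤ D + 1 := by
    have h3 : ((Finset.HasAntidiagonal.antidiagonal k).filter (fun x : ℕ × ℕ => x.1 ≤ D)).card ≤
        (Finset.range (D + 1)).card := by
      refine Finset.card_le_card_of_injOn (fun x => x.1) (fun x hx => ?_) fun x hx y hy hxy => ?_
      · have := (Finset.mem_filter.1 (Finset.mem_coe.1 hx)).2
        simp only [Finset.coe_range, Set.mem_Iio]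
        omega
      · have h4 := Finset.HasAntidiagonal.mem_antidiagonal.1 (Finset.mem_filter.1 (Finset.mem_coe.1 hx)).1
        have h5 := Finset.HasAntidiagonal.mem_antidiagonal.1 (Finset.mem_filter.1 (Finset.mem_coe.1 hy)).1
        simp only at hxy
        refine Prod.ext hxy ?_
        omega
    rwa [Finset.card_range] at h3
  calc ∑ x ∈ (Finset.HasAntidiagonal.antidiagonal k).filter (fun x : ℕ × ℕ => x.1 ≤ D),
      |(f.coeff x.1 : ℝ) * (g.coeff x.2 : ℝ)|
      ≤ ∑ _x ∈ (Finset.HasAntidiagonal.antidiagonal k).filter (fun x : ℕ × ℕ => x.1 ≤ D), H₁ * H₂ := by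
        refine Finset.sum_le_sum fun x _ => ?_
        rw [abs_mul]
        exact mul_le_mul (h1 _) (h2 _) (abs_nonneg _) hH₁
    _ = ((Finset.HasAntidiagonal.antidiagonal k).filter (fun x : ℕ × ℕ => x.1 ≤ D)).card * (H₁ * H₂) := by
        rw [Finset.sum_const, nsmul_eq_mul]
    _ ≤ _ := by
        have h3 : ((((Finset.HasAntidiagonal.antidiagonal k).filter (fun x : ℕ × ℕ => x.1 ≤ D)).card : ℕ) : ℝ) ≤
            (D : ℝ) + 1 := by exact_mod_cast e1
        exact mul_le_mul_of_nonneg_right h3 (by positivity)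

lemma small_mul {r D₁ D₂ : ℕ} {H₁ H₂ : ℝ} (hH₁ : 0 ≤ H₁) (hH₂ : 0 ≤ H₂)
    {P Q : MvPolynomial (Fin r) ℤ[X]} (hP : Pool.Agent.V11210.NA.Small D₁ H₁ P)
    (hQ : Pool.Agent.V11210.NA.Small D₂ H₂ Q) :
    Pool.Agent.V11210.NA.Small (D₁ + D₂) (((box r D₁).card * ((D₁ : ℝ) + 1)) * (H₁ * H₂))
      (P * Q) := by
  classical
  refine ⟨(MvPolynomial.totalDegree_mul _ _).trans (add_le_add hP.1 hQ.1), fun m => ?_⟩
  rw [MvPolynomial.coeff_mul]
  constructor
  · refine Polynomial.natDegree_sum_le_of_forall_le _ _ fun x _ => ?_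
    exact Polynomial.natDegree_mul_le.trans (add_le_add (hP.2 _).1 (hQ.2 _).1)
  · intro k
    rw [Polynomial.finsetSum_coeff]
    push_cast
    refine (Finset.abs_sum_le_sum_abs _ _).trans ?_
    have h0 : ∀ s, s ∉ box r D₁ → P.coeff s = 0 := by
      intro s hs
      by_contra hne
      apply hs
      rw [mem_box]
      have h1 := MvPolynomial.le_totalDegree (MvPolynomial.mem_support_iff.2 hne)
      rw [Finsupp.degree_eq_sum]
      rw [Finsupp.sum_fintype _ _ (fun _ => rfl)] at h1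
      exact h1.trans hP.1
    rw [← Finset.sum_filter_add_sum_filter_not _
      (fun x : (Fin r →₀ ℕ) × (Fin r →₀ ℕ) => x.1 ∈ box r D₁)]
    have e2 : ∑ x ∈ (Finset.HasAntidiagonal.antidiagonal m).filter
        (fun x : (Fin r →₀ ℕ) × (Fin r →₀ ℕ) => ¬ x.1 ∈ box r D₁),
        |(((P.coeff x.1) * (Q.coeff x.2)).coeff k : ℝ)| = 0 := by
      refine Finset.sum_eq_zero fun x hx => ?_
      rw [Finset.mem_filter] at hx
      rw [h0 _ hx.2, zero_mul]
      simp
    rw [e2, add_zero]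
    have e1 : ((Finset.HasAntidiagonal.antidiagonal m).filter
        (fun x : (Fin r →₀ ℕ) × (Fin r →₀ ℕ) => x.1 ∈ box r D₁)).card ≤ (box r D₁).card := by
      refine Finset.card_le_card_of_injOn (fun x => x.1) (fun x hx => ?_) fun x hx y hy hxy => ?_
      · exact (Finset.mem_filter.1 (Finset.mem_coe.1 hx)).2
      · have h4 := Finset.HasAntidiagonal.mem_antidiagonal.1 (Finset.mem_filter.1 (Finset.mem_coe.1 hx)).1
        have h5 := Finset.HasAntidiagonal.mem_antidiagonal.1 (Finset.mem_filter.1 (Finset.mem_coe.1 hy)).1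
        simp only at hxy
        refine Prod.ext hxy ?_
        rw [← h5, hxy] at h4
        exact add_left_cancel h4
    calc
      ∑ x ∈ (Finset.HasAntidiagonal.antidiagonal m).filter
          (fun x : (Fin r →₀ ℕ) × (Fin r →₀ ℕ) => x.1 ∈ box r D₁),
          |(((P.coeff x.1) * (Q.coeff x.2)).coeff k : ℝ)|
        ≤ ∑ _x ∈ (Finset.HasAntidiagonal.antidiagonal m).filter
          (fun x : (Fin r →₀ ℕ) × (Fin r →₀ ℕ) => x.1 ∈ box r D₁),
          ((D₁ : ℝ) + 1) * (H₁ * H₂) := by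
          refine Finset.sum_le_sum fun x _ => ?_
          exact coeff_mul_le _ _ D₁ H₁ H₂ (hP.2 _).1 hH₁ hH₂ (hP.2 _).2 (hQ.2 _).2 k
      _ = ((Finset.HasAntidiagonal.antidiagonal m).filter
          (fun x : (Fin r →₀ ℕ) × (Fin r →₀ ℕ) => x.1 ∈ box r D₁)).card *
          (((D₁ : ℝ) + 1) * (H₁ * H₂)) := by rw [Finset.sum_const, nsmul_eq_mul]
      _ ≤ (box r D₁).card * (((D₁ : ℝ) + 1) * (H₁ * H₂)) := by
          have h3 : ((((Finset.HasAntidiagonal.antidiagonal m).filter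
            (fun x : (Fin r →₀ ℕ) × (Fin r →₀ ℕ) => x.1 ∈ box r D₁)).card : ℕ) : ℝ) ≤
            (box r D₁).card := by exact_mod_cast e1
          exact mul_le_mul_of_nonneg_right h3 (by positivity)
      _ = _ := by ring

lemma small_one {r D : ℕ} : Pool.Agent.V11210.NA.Small D 1 (1 : MvPolynomial (Fin r) ℤ[X]) := by
  classical
  refine ⟨by simp, fun m => ?_⟩
  rw [MvPolynomial.coeff_one]
  split_ifs
  · refine ⟨by simp, fun i => ?_⟩
    rw [Polynomial.coeff_one]
    split_ifs <;> simp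
  · simp

/-- the constant of `small_mul` -/
noncomputable def cst (r D : ℕ) : ℝ := (box r D).card * ((D : ℝ) + 1)

lemma one_le_cst (r D : ℕ) : 1 ≤ cst r D := by
  unfold cst
  have h0 : (0 : Fin r →₀ ℕ) ∈ box r D := by
    rw [mem_box]
    simp
  have h1 : (1 : ℝ) ≤ (box r D).card := by
    exact_mod_cast Finset.card_pos.2 ⟨0, h0⟩
  have h2 : (0 : ℝ) ≤ D := Nat.cast_nonneg D
  nlinarith

lemma small_pow {r D : ℕ} {H : ℝ} (hH : 0 ≤ H) {P : MvPolynomial (Fin r) ℤ[X]}
    (hP : Pool.Agent.V11210.NA.Small D H P) (n : ℕ) :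
    Pool.Agent.V11210.NA.Small (n * D) ((cst r D * H) ^ n) (P ^ n) := by
  induction n with
  | zero =>
    rw [pow_zero, pow_zero]
    exact small_one
  | succ n ih =>
    have h1 := small_mul hH (by have := one_le_cst r D; positivity) hP ih
    rw [pow_succ', pow_succ']
    have e : (n + 1) * D = D + n * D := by ring
    rw [e]
    refine ⟨h1.1, fun m => ⟨(h1.2 m).1, fun i => ((h1.2 m).2 i).trans (le_of_eq ?_)⟩⟩
    unfold cst
    ring

lemma small_weaken {r D D' : ℕ} {H H' : ℝ} (hD : D ≤ D') (hH : H ≤ H')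
    {P : MvPolynomial (Fin r) ℤ[X]} (hP : Pool.Agent.V11210.NA.Small D H P) :
    Pool.Agent.V11210.NA.Small D' H' P :=
  ⟨hP.1.trans hD, fun m => ⟨(hP.2 m).1.trans hD, fun i => ((hP.2 m).2 i).trans hH⟩⟩

lemma small_add {r D : ℕ} {H₁ H₂ : ℝ} {P Q : MvPolynomial (Fin r) ℤ[X]}
    (hP : Pool.Agent.V11210.NA.Small D H₁ P) (hQ : Pool.Agent.V11210.NA.Small D H₂ Q) :
    Pool.Agent.V11210.NA.Small D (H₁ + H₂) (P + Q) := by
  refine ⟨(MvPolynomial.totalDegree_add _ _).trans (max_le hP.1 hQ.1), fun m => ?_⟩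
  rw [MvPolynomial.coeff_add]
  refine ⟨(Polynomial.natDegree_add_le _ _).trans (max_le (hP.2 m).1 (hQ.2 m).1), fun i => ?_⟩
  rw [Polynomial.coeff_add]
  push_cast
  exact (abs_add_le _ _).trans (add_le_add ((hP.2 m).2 i) ((hQ.2 m).2 i))

lemma small_smul {r D : ℕ} {H : ℝ} (a : ℤ) (A : ℝ) (hA : |(a : ℝ)| ≤ A)
    {P : MvPolynomial (Fin r) ℤ[X]} (hP : Pool.Agent.V11210.NA.Small D H P) :
    Pool.Agent.V11210.NA.Small D (A * H) (a • P) := by
  have hA0 : 0 ≤ A := (abs_nonneg _).trans hA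
  refine ⟨(MvPolynomial.totalDegree_smul_le _ _).trans hP.1, fun m => ?_⟩
  rw [MvPolynomial.coeff_smul]
  refine ⟨(Polynomial.natDegree_smul_le _ _).trans (hP.2 m).1, fun i => ?_⟩
  rw [Polynomial.coeff_smul, smul_eq_mul]
  push_cast
  rw [abs_mul]
  exact mul_le_mul hA ((hP.2 m).2 i) (abs_nonneg _) hA0

lemma small_sum {r D : ℕ} {ι : Type} (s : Finset ι) (H : ι → ℝ) (hH : ∀ i ∈ s, 0 ≤ H i)
    (f : ι → MvPolynomial (Fin r) ℤ[X])
    (h : ∀ i ∈ s, Pool.Agent.V11210.NA.Small D (H i) (f i)) :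
    Pool.Agent.V11210.NA.Small D (∑ i ∈ s, H i) (∑ i ∈ s, f i) := by
  classical
  induction s using Finset.induction_on with
  | empty =>
    simp only [Finset.sum_empty]
    exact ⟨by simp, fun m => by simp⟩
  | insert a s ha ih =>
    rw [Finset.sum_insert ha, Finset.sum_insert ha]
    exact small_add (h a (Finset.mem_insert_self _ _))
      (ih (fun i hi => hH i (Finset.mem_insert_of_mem hi))
        (fun i hi => h i (Finset.mem_insert_of_mem hi)))

/-- composition -/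
lemma small_comp {r D d : ℕ} {H : ℝ} (hH : 1 ≤ H) {P : MvPolynomial (Fin r) ℤ[X]}
    (hP : Pool.Agent.V11210.NA.Small D H P) (m : ℤ[X]) (hm : m.natDegree ≤ d)
    (hmH : ∀ i, |(m.coeff i : ℝ)| ≤ H) :
    Pool.Agent.V11210.NA.Small (d * D) (((d : ℝ) + 1) * cst r D ^ d * H ^ (d + 1))
      (Polynomial.aeval P m) := by
  have hc := one_le_cst r D
  have hcH : 1 ≤ cst r D * H := one_le_mul_of_one_le_of_one_le hc hH
  rw [Polynomial.aeval_eq_sum_range' (show m.natDegree < d + 1 by omega)]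
  have h1 := small_sum (D := d * D) (Finset.range (d + 1)) (fun _ => H * (cst r D * H) ^ d)
    (fun i _ => by positivity) (fun i => m.coeff i • P ^ i) (fun i hi => by
      rw [Finset.mem_range] at hi
      refine small_smul _ H (hmH i) (small_weaken ?_ ?_ (small_pow (by linarith) hP i))
      · exact Nat.mul_le_mul_right _ (by omega)
      · exact pow_le_pow_right₀ hcH (by omega))
  refine small_weaken le_rfl (le_of_eq ?_) h1
  rw [Finset.sum_const, Finset.card_range, nsmul_eq_mul, mul_pow]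
  push_cast
  ring

/-- size of a polynomial near a zero -/
lemma near_root (m : ℤ[X]) (d : ℕ) (hm : m.natDegree ≤ d) (H : ℝ)
    (hmH : ∀ i, |(m.coeff i : ℝ)| ≤ H) (z α : ℂ) (M : ℝ) (hM : 1 ≤ M) (hz : ‖z‖ ≤ M)
    (hα : ‖α‖ ≤ M) (hmα : Polynomial.aeval α m = 0) :
    ‖Polynomial.aeval z m‖ ≤ (((d : ℝ) + 1) * d * M ^ d * H) * ‖z - α‖ := by
  have hH0 : 0 ≤ H := (abs_nonneg _).trans (hmH 0)
  have h0 : Polynomial.aeval z m = ∑ i ∈ Finset.range (d + 1), (m.coeff i : ℂ) * (z ^ i - α ^ i) := by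
    have h1 : Polynomial.aeval z m - Polynomial.aeval α m =
        ∑ i ∈ Finset.range (d + 1), (m.coeff i : ℂ) * (z ^ i - α ^ i) := by
      rw [Polynomial.aeval_eq_sum_range' (show m.natDegree < d + 1 by omega),
        Polynomial.aeval_eq_sum_range' (show m.natDegree < d + 1 by omega), ← Finset.sum_sub_distrib]
      refine Finset.sum_congr rfl fun i _ => ?_
      rw [zsmul_eq_mul, zsmul_eq_mul]
      ring
    rw [← h1, hmα, sub_zero]
  rw [h0]
  refine (norm_sum_le _ _).trans ?_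
  have hpow : ∀ i, i ≤ d → ‖z ^ i - α ^ i‖ ≤ (d * M ^ d) * ‖z - α‖ := by
    intro i hi
    rw [← Commute.geom_sum₂_mul (Commute.all z α), norm_mul]
    refine mul_le_mul_of_nonneg_right ?_ (norm_nonneg _)
    refine (norm_sum_le _ _).trans ?_
    calc ∑ j ∈ Finset.range i, ‖z ^ j * α ^ (i - 1 - j)‖ ≤ ∑ _j ∈ Finset.range i, M ^ d := by
          refine Finset.sum_le_sum fun j hj => ?_
          rw [Finset.mem_range] at hj
          rw [norm_mul, norm_pow, norm_pow]
          calc ‖z‖ ^ j * ‖α‖ ^ (i - 1 - j) ≤ M ^ j * M ^ (i - 1 - j) := by gcongr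
            _ = M ^ (i - 1) := by rw [← pow_add]; congr 1; omega
            _ ≤ M ^ d := pow_le_pow_right₀ hM (by omega)
      _ = i * M ^ d := by rw [Finset.sum_const, Finset.card_range, nsmul_eq_mul]
      _ ≤ d * M ^ d := by
          have : (i : ℝ) ≤ d := by exact_mod_cast hi
          exact mul_le_mul_of_nonneg_right this (by positivity)
  calc ∑ i ∈ Finset.range (d + 1), ‖(m.coeff i : ℂ) * (z ^ i - α ^ i)‖
      ≤ ∑ _i ∈ Finset.range (d + 1), H * ((d * M ^ d) * ‖z - α‖) := by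
        refine Finset.sum_le_sum fun i hi => ?_
        rw [Finset.mem_range] at hi
        rw [norm_mul, Complex.norm_intCast]
        exact mul_le_mul (hmH i) (hpow i (by omega)) (norm_nonneg _) hH0
    _ = _ := by
        rw [Finset.sum_const, Finset.card_range, nsmul_eq_mul]
        push_cast
        ring

end Pool.Agent.V1139.NA
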