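import Pool.Agent.V1139.NA.Comp
import Pool.Agent.V1139.NA.Lin

/-!
# Polynomials whose values are near algebraic numbers: one point at each height

Author: helper39.
-/

set_option autoImplicit false

namespace Pool.Agent.V1139.NA

open Pool.Agent.TH456.TM (σx MeasT σx_coeff)
open Pool.Agent.V11210.NA (near_core val box mem_box AF fn fn_inj)
open scoped Polynomial

lemma map_aeval' {R S : Type} [CommRing R] [CommRing S] (φ : R →+* S) (P : R) (m : ℤ[X]) :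
    φ (Polynomial.aeval P m) = Polynomial.aeval (φ P) m :=
  (Polynomial.aeval_algHom_apply φ.toIntAlgHom P m).symm

lemma val_aeval {r : ℕ} (x : ℂ) (t : Fin r → ℂ) (P : MvPolynomial (Fin r) ℤ[X]) (m : ℤ[X]) :
    val x t (Polynomial.aeval P m) = Polynomial.aeval (val x t P) m :=
  map_aeval' (MvPolynomial.eval₂Hom (σx x) t) P m

/-- **Near algebraic numbers**: one point of functions absorbs all -/
theorem alg_point {Ω : Type} [Field Ω] [IsAlgClosed Ω] (ι : ℤ[X] →+* Ω)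
    (hι : Function.Injective ι) (x : ℂ) (hx : MeasT x) (r D d : ℕ) (B₀ : ℝ) :
    ∃ κ : ℝ, 0 < κ ∧ ∀ T : ℝ, ∃ c : ℝ, 0 < c ∧ ∀ t : Fin r → ℂ, (∀ i, ‖t i‖ ≤ T) →
      ∀ H : ℝ, 1 ≤ H → ∃ y : Fin r → Ω,
        (∀ Q : MvPolynomial (Fin r) ℤ[X], Pool.Agent.V11210.NA.Small D B₀ Q → val x t Q = 0 →
          Q.eval₂ ι y = 0) ∧
        ∀ P : MvPolynomial (Fin r) ℤ[X], Pool.Agent.V11210.NA.Small D H P →
          ∀ (m : ℤ[X]) (α : ℂ), m.natDegree ≤ d → (∀ i, |(m.coeff i : ℝ)| ≤ H) →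
            Polynomial.aeval α m = 0 → ‖val x t P - α‖ < c * H ^ (-κ) →
            Polynomial.aeval (P.eval₂ ι y) m = 0 := by
  obtain ⟨D', hD'⟩ : ∃ D', D' = max D (d * D) := ⟨_, rfl⟩
  obtain ⟨κ₀, hκ₀, h⟩ := near_core ι hι x hx r D'
  refine ⟨(d + 1) * κ₀ + (d + 1), by positivity, fun T => ?_⟩
  obtain ⟨T₁, hT₁⟩ : ∃ T₁ : ℝ, T₁ = max 1 T := ⟨_, rfl⟩
  have hT₁1 : 1 ≤ T₁ := by rw [hT₁]; exact le_max_left _ _
  obtain ⟨c₀, hc₀, h⟩ := h T₁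
  obtain ⟨B₁, hB₁⟩ : ∃ B₁ : ℝ, B₁ = max 1 B₀ := ⟨_, rfl⟩
  have hB₁1 : 1 ≤ B₁ := by rw [hB₁]; exact le_max_left _ _
  obtain ⟨A₁, hA₁⟩ : ∃ A₁ : ℝ, A₁ = ((d : ℝ) + 1) * cst r D ^ d := ⟨_, rfl⟩
  have hcst := one_le_cst r D
  have hd0 : (0 : ℝ) ≤ d := Nat.cast_nonneg d
  have hA₁1 : 1 ≤ A₁ := by
    rw [hA₁]
    exact one_le_mul_of_one_le_of_one_le (by linarith) (one_le_pow₀ hcst)
  obtain ⟨A, hA⟩ : ∃ A : ℝ, A = B₁ * A₁ := ⟨_, rfl⟩
  have hA1 : 1 ≤ A := by rw [hA]; exact one_le_mul_of_one_le_of_one_le hB₁1 hA₁1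
  have hA0 : 0 < A := by linarith
  obtain ⟨A₂, hA₂⟩ : ∃ A₂ : ℝ, A₂ = (box r D).card *
    (((D : ℝ) + 1) * (max 1 ‖x‖) ^ D * T₁ ^ D) := ⟨_, rfl⟩
  have hA₂0 : 0 ≤ A₂ := by rw [hA₂]; positivity
  obtain ⟨A₃, hA₃⟩ : ∃ A₃ : ℝ, A₃ = ((d : ℝ) + 1) * d * (A₂ + 1) ^ d := ⟨_, rfl⟩
  have hA₃0 : 0 ≤ A₃ := by rw [hA₃]; positivity
  refine ⟨min 1 (c₀ * A ^ (-κ₀) / (A₃ + 1)), lt_min one_pos (by positivity),
    fun t ht H hH => ?_⟩
  have hH0 : 0 < H := by linarith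
  have hHd : 1 ≤ H ^ (d + 1) := one_le_pow₀ hH
  have ht1 : ∀ i, ‖t i‖ ≤ T₁ := fun i => (ht i).trans (by rw [hT₁]; exact le_max_right _ _)
  obtain ⟨y, hy⟩ := h t ht1 (A * H ^ (d + 1)) (one_le_mul_of_one_le_of_one_le hA1 hHd)
  refine ⟨y, fun Q hQ hQ0 => ?_, fun P hP m α hm hmH hmα hPα => ?_⟩
  · refine hy Q (small_weaken (by omega) ?_ hQ) ?_
    · calc B₀ ≤ B₁ := by rw [hB₁]; exact le_max_right _ _
        _ ≤ A := by rw [hA]; exact le_mul_of_one_le_right (by linarith) hA₁1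
        _ ≤ A * H ^ (d + 1) := le_mul_of_one_le_right hA0.le hHd
    · rw [hQ0, norm_zero]
      positivity
  · obtain ⟨z, hz⟩ : ∃ z, z = val x t P := ⟨_, rfl⟩
    rw [← hz] at hPα
    have hHκ : H ^ (-(((d : ℝ) + 1) * κ₀ + (d + 1))) ≤ 1 :=
      Real.rpow_le_one_of_one_le_of_nonpos hH (by
        have : 0 ≤ ((d : ℝ) + 1) * κ₀ + (d + 1) := by positivity
        linarith)
    have hHκ0 : 0 < H ^ (-(((d : ℝ) + 1) * κ₀ + (d + 1))) := by positivity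
    have hlt1 : ‖z - α‖ ≤ 1 := by
      refine hPα.le.trans ?_
      calc _ ≤ 1 * H ^ (-(((d : ℝ) + 1) * κ₀ + (d + 1))) :=
            mul_le_mul_of_nonneg_right (min_le_left _ _) hHκ0.le
        _ ≤ 1 := by rw [one_mul]; exact hHκ
    have hzM : ‖z‖ ≤ A₂ * H := by
      rw [hz, hA₂]
      exact norm_val_le x t D T₁ H hT₁1 ht1 P hP
    have hM : A₂ * H + 1 ≤ (A₂ + 1) * H := by nlinarith
    have hzM' : ‖z‖ ≤ (A₂ + 1) * H := by linarith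
    have hαM : ‖α‖ ≤ (A₂ + 1) * H := by
      have h1 : ‖α‖ ≤ ‖z‖ + ‖z - α‖ := by
        have h2 := norm_sub_le z (z - α)
        rwa [sub_sub_cancel] at h2
      linarith
    have hM1 : 1 ≤ (A₂ + 1) * H := by nlinarith
    have h1 := near_root m d hm H hmH z α ((A₂ + 1) * H) hM1 hzM' hαM hmα
    have hcomp := small_comp hH hP m hm hmH
    rw [← hA₁] at hcomp
    have h2 := hy (Polynomial.aeval P m) (small_weaken (by omega) (by
      rw [hA]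
      have : A₁ ≤ B₁ * A₁ := le_mul_of_one_le_left (by linarith) hB₁1
      exact mul_le_mul_of_nonneg_right this (by positivity)) hcomp) (by
      rw [val_aeval, ← hz]
      refine h1.trans_lt ?_
      have e1 : ((d : ℝ) + 1) * d * ((A₂ + 1) * H) ^ d * H = A₃ * H ^ (d + 1) := by
        rw [hA₃, mul_pow, pow_succ]
        ring
      rw [e1]
      have hpos : 0 < H ^ (d + 1) := by positivity
      have h3 : ‖z - α‖ < c₀ * A ^ (-κ₀) / (A₃ + 1) * H ^ (-(((d : ℝ) + 1) * κ₀ + (d + 1))) :=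
        hPα.trans_le (mul_le_mul_of_nonneg_right (min_le_right _ _) hHκ0.le)
      have e2 : H ^ (-(((d : ℝ) + 1) * κ₀ + (d + 1))) =
          (H ^ (d + 1)) ^ (-κ₀) * (H ^ (d + 1))⁻¹ := by
        rw [← Real.rpow_natCast, ← Real.rpow_mul hH0.le, ← Real.rpow_neg hH0.le,
          ← Real.rpow_add hH0]
        congr 1
        push_cast
        ring
      have hA₃1 : 0 < A₃ + 1 := by linarith
      calc A₃ * H ^ (d + 1) * ‖z - α‖ ≤ (A₃ + 1) * H ^ (d + 1) * ‖z - α‖ := by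
            have : A₃ * H ^ (d + 1) ≤ (A₃ + 1) * H ^ (d + 1) :=
              mul_le_mul_of_nonneg_right (by linarith) hpos.le
            exact mul_le_mul_of_nonneg_right this (norm_nonneg _)
        _ < (A₃ + 1) * H ^ (d + 1) * (c₀ * A ^ (-κ₀) / (A₃ + 1) *
              H ^ (-(((d : ℝ) + 1) * κ₀ + (d + 1)))) :=
            mul_lt_mul_of_pos_left h3 (by positivity)
        _ = c₀ * (A * H ^ (d + 1)) ^ (-κ₀) := by
            rw [e2, Real.mul_rpow hA0.le hpos.le]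
            field_simp)
    rwa [show (Polynomial.aeval P m).eval₂ ι y = Polynomial.aeval (P.eval₂ ι y) m from
      map_aeval' (MvPolynomial.eval₂Hom ι y) P m] at h2

/-- the same with `eval₂` -/
theorem alg_point' {Ω : Type} [Field Ω] [IsAlgClosed Ω] (ι : ℤ[X] →+* Ω)
    (hι : Function.Injective ι) (x : ℂ) (hx : MeasT x) (r D d : ℕ) (B₀ : ℝ) :
    ∃ κ : ℝ, 0 < κ ∧ ∀ T : ℝ, ∃ c : ℝ, 0 < c ∧ ∀ t : Fin r → ℂ, (∀ i, ‖t i‖ ≤ T) →
      ∀ H : ℝ, 1 ≤ H → ∃ y : Fin r → Ω,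
        (∀ Q : MvPolynomial (Fin r) ℤ[X], Pool.Agent.V11210.NA.Small D B₀ Q → val x t Q = 0 →
          Q.eval₂ ι y = 0) ∧
        ∀ P : MvPolynomial (Fin r) ℤ[X], Pool.Agent.V11210.NA.Small D H P →
          ∀ (m : ℤ[X]) (α : ℂ), m.natDegree ≤ d → (∀ i, |(m.coeff i : ℝ)| ≤ H) →
            m.eval₂ (Int.castRingHom ℂ) α = 0 → ‖val x t P - α‖ < c * H ^ (-κ) →
            m.eval₂ (Int.castRingHom Ω) (P.eval₂ ι y) = 0 := by
  obtain ⟨κ, hκ, h⟩ := alg_point ι hι x hx r D d B₀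
  refine ⟨κ, hκ, fun T => ?_⟩
  obtain ⟨c, hc, h⟩ := h T
  refine ⟨c, hc, fun t ht H hH => ?_⟩
  obtain ⟨y, h1, h2⟩ := h t ht H hH
  exact ⟨y, h1, fun P hP m α a1 a2 a3 a4 => h2 P hP m α a1 a2 a3 a4⟩

end Pool.Agent.V1139.NA
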