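import Pool.Agent.V11210.NA.One
import Pool.Agent.V1139.DC.Digits

/-!
# Digits of polynomials in a number with a transcendence measure and arbitrary numbers

Author: helper39.  The absorption of near relations is `Pool.Agent.V11210.NA.near_core` (helper210),
the rational approximations come from `Pool.Agent.V1189.DG.exists_approx` (helper89).
-/

set_option autoImplicit false

namespace Pool.Agent.V1139.NA

open Pool.Agent.TH456.TM (σx MeasT σx_coeff)
open Pool.Agent.V11210.NA (near_core val norm_mon_le eval₂_eq_sum box)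
open Pool.Agent.V1139.DC (approx_of_small)
open scoped Polynomial

/-- the real value `P(x, t)` -/
noncomputable def rv {r : ℕ} (x : ℝ) (t : Fin r → ℝ) (P : MvPolynomial (Fin r) ℤ[X]) : ℝ :=
  P.eval₂ (Polynomial.aeval x : ℤ[X] →ₐ[ℤ] ℝ).toRingHom t

lemma val_eq {r : ℕ} (x : ℝ) (t : Fin r → ℝ) (P : MvPolynomial (Fin r) ℤ[X]) :
    val (x : ℂ) (fun i => (t i : ℂ)) P = ((rv x t P : ℝ) : ℂ) := by
  have h := MvPolynomial.eval₂_comp_left Complex.ofRealHom
    (Polynomial.aeval x : ℤ[X] →ₐ[ℤ] ℝ).toRingHom t P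
  have h1 : Complex.ofRealHom.comp (Polynomial.aeval x : ℤ[X] →ₐ[ℤ] ℝ).toRingHom = σx (x : ℂ) := by
    refine Polynomial.ringHom_ext (fun a => ?_) ?_
    · simp [σx]
    · simp [σx]
  rw [h1] at h
  unfold val rv
  exact h.symm

lemma norm_val_le {r : ℕ} (x : ℂ) (t : Fin r → ℂ) (D : ℕ) (T H : ℝ) (hT : 1 ≤ T)
    (ht : ∀ i, ‖t i‖ ≤ T) (P : MvPolynomial (Fin r) ℤ[X])
    (hP : Pool.Agent.V11210.NA.Small D H P) :
    ‖val x t P‖ ≤ ((box r D).card * (((D : ℝ) + 1) * (max 1 ‖x‖) ^ D * T ^ D)) * H := by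
  unfold val
  rw [eval₂_eq_sum (σx x) t hP.1]
  refine (norm_sum_le _ _).trans ?_
  calc ∑ s ∈ box r D, ‖σx x (P.coeff s) * ∏ i, t i ^ s i‖
      ≤ ∑ _s ∈ box r D, (((D : ℝ) + 1) * (max 1 ‖x‖) ^ D * H) * T ^ D := by
        refine Finset.sum_le_sum fun s hs => ?_
        rw [norm_mul]
        have h1 := σx_coeff x D (P.coeff s) H (hP.2 s).1 (hP.2 s).2
        have h2 := norm_mon_le hT ht hs
        exact mul_le_mul h1 h2 (norm_nonneg _) ((norm_nonneg _).trans h1)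
    _ = _ := by
        rw [Finset.sum_const, nsmul_eq_mul]
        ring

lemma small_comb {r : ℕ} (D : ℕ) (W : ℝ) (hW : 1 ≤ W) (P : MvPolynomial (Fin r) ℤ[X])
    (hP : Pool.Agent.V11210.NA.Small D W P) (q : ℕ) (hq : 1 ≤ q) (p : ℤ) (A : ℝ) (hA : 0 ≤ A)
    (hp : |(p : ℝ)| ≤ q * (A * W) + W) :
    Pool.Agent.V11210.NA.Small D ((2 + A) * (q * W))
      (MvPolynomial.C (Polynomial.C (q : ℤ)) * P - MvPolynomial.C (Polynomial.C p)) := by
  classical
  have hq0 : (1 : ℝ) ≤ q := by exact_mod_cast hq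
  constructor
  · refine (MvPolynomial.totalDegree_sub_C_le _ _).trans ?_
    refine (MvPolynomial.totalDegree_mul _ _).trans ?_
    rw [MvPolynomial.totalDegree_C, zero_add]
    exact hP.1
  · intro m
    have h0 : (MvPolynomial.C (Polynomial.C (q : ℤ)) * P - MvPolynomial.C (Polynomial.C p) :
        MvPolynomial (Fin r) ℤ[X]).coeff m =
        Polynomial.C (q : ℤ) * P.coeff m - if 0 = m then Polynomial.C p else 0 := by
      rw [MvPolynomial.coeff_sub, MvPolynomial.coeff_C_mul, MvPolynomial.coeff_C]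
    rw [h0]
    constructor
    · refine (Polynomial.natDegree_sub_le _ _).trans (max_le ?_ ?_)
      · exact (Polynomial.natDegree_C_mul_le _ _).trans (hP.2 m).1
      · split_ifs <;> simp
    · intro i
      have h1 : |((Polynomial.C (q : ℤ) * P.coeff m : ℤ[X]).coeff i : ℝ)| ≤ q * W := by
        rw [Polynomial.coeff_C_mul]
        push_cast
        rw [abs_mul, abs_of_nonneg (by linarith : (0 : ℝ) ≤ q)]
        exact mul_le_mul_of_nonneg_left ((hP.2 m).2 i) (by linarith)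
      have h2 : |(((if 0 = m then Polynomial.C p else 0 : ℤ[X])).coeff i : ℝ)| ≤
          q * (A * W) + W := by
        have h3 : 0 ≤ q * (A * W) + W := by positivity
        split_ifs
        · rw [Polynomial.coeff_C]
          split_ifs
          · exact hp
          · simpa using h3
        · simpa using h3
      rw [Polynomial.coeff_sub]
      push_cast only [Int.cast_sub]
      refine (abs_sub _ _).trans ?_
      have h3 : W ≤ q * W := le_mul_of_one_le_left (by linarith) hq0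
      nlinarith

/-- **Digits, polynomials in `x` and arbitrary numbers, each in its own base.** -/
theorem digits_core {Ω : Type} [Field Ω] [IsAlgClosed Ω] (ι : ℤ[X] →+* Ω)
    (hι : Function.Injective ι) (x : ℝ) (hx : MeasT (x : ℂ)) (r D : ℕ) :
    ∃ ν : ℝ, 0 < ν ∧ ∀ T : ℝ, ∃ K δ : ℝ, 0 < K ∧ 0 < δ ∧ ∀ t : Fin r → ℝ, (∀ i, |t i| ≤ T) →
      ∀ Λ : ℝ, ∃ y : Fin r → Ω,
        (∀ P : MvPolynomial (Fin r) ℤ[X], Pool.Agent.V11210.NA.Small D 1 P → rv x t P = 0 →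
          P.eval₂ ι y = 0) ∧
        ∀ (P : MvPolynomial (Fin r) ℤ[X]) (D₀ : ℕ),
          Pool.Agent.V11210.NA.Small D (Real.exp (δ * Λ)) P → 1 ≤ D₀ →
          (D₀ : ℝ) ≤ Real.exp (δ * Λ) → Pool.Agent.V1139.DC.Small ν K Λ (rv x t P / D₀) →
          ∃ (q : ℕ) (p : ℤ), 1 ≤ q ∧ (q : Ω) * P.eval₂ ι y = p := by
  obtain ⟨κ, hκ, hcore⟩ := near_core ι hι (x : ℂ) hx r D
  obtain ⟨ν, hν⟩ : ∃ ν : ℝ, ν = 1 / (κ + 1) := ⟨_, rfl⟩
  have hνκ : (κ + 1) * ν = 1 := by rw [hν]; field_simp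
  have hν0 : 0 < ν := by rw [hν]; positivity
  have hν1 : ν ≤ 1 := by
    rw [hν, div_le_one (by linarith)]
    linarith
  obtain ⟨ε, hε⟩ : ∃ ε : ℝ, ε = ν / 2 := ⟨_, rfl⟩
  have hε0 : 0 < ε := by rw [hε]; positivity
  obtain ⟨K₀, hK₀, hK⟩ := approx_of_small ν ε hν1 hε0
  refine ⟨ν - ε, by rw [hε]; linarith, fun T => ?_⟩
  obtain ⟨T₁, hT₁⟩ : ∃ T₁ : ℝ, T₁ = max 1 T := ⟨_, rfl⟩
  have hT₁1 : 1 ≤ T₁ := by rw [hT₁]; exact le_max_left _ _
  obtain ⟨c, hc, hcore⟩ := hcore T₁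
  obtain ⟨A, hA⟩ : ∃ A : ℝ, A = (box r D).card *
    (((D : ℝ) + 1) * (max 1 ‖(x : ℂ)‖) ^ D * T₁ ^ D) := ⟨_, rfl⟩
  have hA0 : 0 ≤ A := by rw [hA]; positivity
  obtain ⟨B, hB⟩ : ∃ B : ℝ, B = 2 + A := ⟨_, rfl⟩
  have hB0 : 0 < B := by rw [hB]; positivity
  obtain ⟨K, hKd⟩ : ∃ K : ℝ, K = K₀ + 16 / ε * (|Real.log B| + |Real.log c| + 1) := ⟨_, rfl⟩
  have hlB := abs_nonneg (Real.log B)
  have hlc := abs_nonneg (Real.log c)
  have hKK₀ : K₀ ≤ K := by
    rw [hKd]
    have : 0 ≤ 16 / ε * (|Real.log B| + |Real.log c| + 1) := by positivity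
    linarith
  have hK0 : 0 < K := by linarith
  refine ⟨K, ε / 8, hK0, by positivity, fun t ht Λ => ?_⟩
  have ht1 : ∀ i, ‖(t i : ℂ)‖ ≤ T₁ := by
    intro i
    rw [Complex.norm_real, Real.norm_eq_abs, hT₁]
    exact (ht i).trans (le_max_right _ _)
  obtain ⟨U, hU⟩ : ∃ U : ℝ, U = (ν - ε / 4) * Λ := ⟨_, rfl⟩
  obtain ⟨y, hy⟩ := hcore (fun i => (t i : ℂ)) ht1 (max 1 (Real.exp U)) (le_max_left _ _)
  refine ⟨y, fun P hP hP0 => ?_, fun P D₀ hP hD1 hDδ hxs => ?_⟩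
  · refine hy P ⟨hP.1, fun m => ⟨(hP.2 m).1, fun i => ((hP.2 m).2 i).trans (le_max_left _ _)⟩⟩ ?_
    rw [val_eq, hP0, Complex.ofReal_zero, norm_zero]
    positivity
  · obtain ⟨hνε, hKΛ, q, p, hq1, hqU, hqx⟩ := hK K hKK₀ Λ _ hxs
    have hΛ : 16 / ε * (|Real.log B| + |Real.log c| + 1) ≤ 2 * Λ := by linarith
    have hΛ2 : |Real.log B| + |Real.log c| + 1 ≤ ε / 8 * Λ := by
      rw [div_mul_eq_mul_div, div_le_iff₀ hε0] at hΛ
      linarith
    have hΛ0 : 0 < Λ := by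
      have : 0 < ε / 8 * Λ := by linarith
      by_contra hcon
      push Not at hcon
      have := mul_nonpos_of_nonneg_of_nonpos (by linarith : 0 ≤ ε / 8) hcon
      linarith
    have hU0 : 0 ≤ U := by rw [hU]; exact mul_nonneg (by linarith) hΛ0.le
    rw [max_eq_right (Real.one_le_exp hU0)] at hy
    obtain ⟨W, hW⟩ : ∃ W : ℝ, W = Real.exp (ε / 8 * Λ) := ⟨_, rfl⟩
    rw [← hW] at hDδ hP
    have hW1 : 1 ≤ W := by rw [hW]; exact Real.one_le_exp (by positivity)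
    have hD0 : (0 : ℝ) < D₀ := by exact_mod_cast hD1
    have hq0 : (0 : ℝ) < q := by exact_mod_cast hq1
    have hPz : |rv x t P| ≤ A * W := by
      have h1 := norm_val_le (x : ℂ) (fun i => (t i : ℂ)) D T₁ W hT₁1 ht1 P hP
      rw [val_eq, Complex.norm_real, Real.norm_eq_abs, ← hA] at h1
      exact h1
    have hexp1 : Real.exp ((ν - ε / 2) * Λ - Λ) ≤ 1 := by
      rw [Real.exp_le_one_iff]
      nlinarith
    have hp : |((p * D₀ : ℤ) : ℝ)| ≤ q * (A * W) + W := by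
      push_cast
      have h1 : (p : ℝ) * D₀ = q * rv x t P - D₀ * (q * (rv x t P / D₀) - p) := by
        field_simp
        ring
      rw [h1]
      refine (abs_sub _ _).trans ?_
      rw [abs_mul, abs_mul, abs_of_pos hq0, abs_of_pos hD0]
      have h2 : (D₀ : ℝ) * |q * (rv x t P / D₀) - p| ≤ W * 1 :=
        mul_le_mul hDδ (hqx.trans hexp1) (abs_nonneg _) (by linarith)
      have h3 : (q : ℝ) * |rv x t P| ≤ q * (A * W) := mul_le_mul_of_nonneg_left hPz hq0.le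
      linarith
    have hQ := small_comb D W hW1 P hP q hq1 (p * D₀) A hA0 hp
    have hqW : (q : ℝ) * W ≤ Real.exp ((ν - ε / 2) * Λ + ε / 8 * Λ) := by
      rw [Real.exp_add, ← hW]
      exact mul_le_mul_of_nonneg_right hqU (by linarith)
    have hBU : (2 + A) * (q * W) ≤ Real.exp U := by
      rw [← hB]
      have h2 : B * (q * W) ≤ Real.exp (Real.log B) * Real.exp ((ν - ε / 2) * Λ + ε / 8 * Λ) := by
        rw [Real.exp_log hB0]
        exact mul_le_mul_of_nonneg_left hqW hB0.le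
      refine h2.trans ?_
      rw [← Real.exp_add]
      apply Real.exp_le_exp.2
      have h3 := le_abs_self (Real.log B)
      rw [hU]
      linarith
    have hval : val (x : ℂ) (fun i => (t i : ℂ)) (MvPolynomial.C (Polynomial.C (q : ℤ)) * P -
        MvPolynomial.C (Polynomial.C (p * D₀))) = ((D₀ * (q * (rv x t P / D₀) - p) : ℝ) : ℂ) := by
      have h1 : (D₀ * (q * (rv x t P / D₀) - p) : ℝ) = q * rv x t P - p * D₀ := by
        field_simp
      rw [h1]
      have h2 := val_eq x t P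
      unfold val at h2 ⊢
      rw [MvPolynomial.eval₂_sub, MvPolynomial.eval₂_mul, MvPolynomial.eval₂_C,
        MvPolynomial.eval₂_C, h2]
      simp [σx]
    have hz := hy _ ⟨hQ.1, fun m => ⟨(hQ.2 m).1, fun i => ((hQ.2 m).2 i).trans hBU⟩⟩ (by
      rw [hval, Complex.norm_real, Real.norm_eq_abs, abs_mul, abs_of_pos hD0]
      have h1 : (D₀ : ℝ) * |q * (rv x t P / D₀) - p| ≤ W * Real.exp ((ν - ε / 2) * Λ - Λ) :=
        mul_le_mul hDδ hqx (abs_nonneg _) (by linarith)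
      refine h1.trans_lt ?_
      rw [← Real.exp_mul, hW]
      obtain ⟨lc, hlc'⟩ : ∃ lc, lc = Real.log c := ⟨_, rfl⟩
      have h1 : c = Real.exp lc := by rw [hlc', Real.exp_log hc]
      rw [← hlc'] at hΛ2
      rw [h1, ← Real.exp_add, ← Real.exp_add]
      apply Real.exp_lt_exp.2
      have h2 := neg_abs_le lc
      have h2' := abs_nonneg lc
      have h3 : κ * ν * Λ = Λ - ν * Λ := by linear_combination Λ * hνκ
      have h4 : U * -κ = -(κ * ν * Λ) + κ * (ε / 4 * Λ) := by rw [hU]; ring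
      have h5 : 0 ≤ κ * (ε / 4 * Λ) := by positivity
      rw [h4, h3]
      linarith)
    refine ⟨q, p * D₀, hq1, ?_⟩
    rw [MvPolynomial.eval₂_sub, MvPolynomial.eval₂_mul, MvPolynomial.eval₂_C,
      MvPolynomial.eval₂_C] at hz
    have h1 : ι (Polynomial.C (q : ℤ)) = (q : Ω) := by
      rw [show (Polynomial.C (q : ℤ) : ℤ[X]) = (q : ℤ[X]) by simp, map_natCast]
    have h2 : ι (Polynomial.C (p * D₀ : ℤ)) = ((p * D₀ : ℤ) : Ω) := by
      rw [show (Polynomial.C (p * D₀ : ℤ) : ℤ[X]) = ((p * D₀ : ℤ) : ℤ[X]) by simp, map_intCast]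
    rw [h1, h2, sub_eq_zero] at hz
    exact hz

end Pool.Agent.V1139.NA
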