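import Pool.Agent.V1139.NA.Dig

/-!
# Monomials and simple polynomials of small linear complexity

Author: helper39.
-/

set_option autoImplicit false

namespace Pool.Agent.V1139.NA

open Pool.Agent.TH456.TM (σx MeasT σx_coeff)
open Pool.Agent.V11210.NA (AF fn fn_inj exists_irr toMv eval₂_toMv small_toMv)
open scoped Polynomial

lemma charZero_AF : CharZero AF := charZero_of_injective_ringHom (R := ℤ[X]) fn_inj

/-- a rational constant -/
def IsConst (z : AF) : Prop := ∃ c : ℚ, z = c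

lemma isConst_of_mul {z : AF} {q : ℕ} {p : ℤ} (hq : 1 ≤ q) (h : (q : AF) * z = p) : IsConst z := by
  have := charZero_AF
  refine ⟨(p : ℚ) / q, ?_⟩
  have hq0 : (q : AF) ≠ 0 := by exact_mod_cast (by omega : q ≠ 0)
  push_cast
  rw [eq_div_iff hq0, mul_comm]
  exact h

lemma fn_const {R : ℤ[X]} (h : IsConst (fn R)) : R.natDegree = 0 := by
  have := charZero_AF
  obtain ⟨c, hc⟩ := h
  have hd : (c.den : AF) ≠ 0 := by exact_mod_cast c.den_nz
  have h1 : fn ((c.den : ℤ[X]) * R) = fn (c.num : ℤ[X]) := by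
    rw [map_mul, map_natCast, map_intCast, hc]
    have h2 : (c.den : AF) * (c : AF) = (c.num : AF) := by
      have h3 : (c.den : ℚ) * c = c.num := Rat.den_mul_eq_num c
      exact_mod_cast congrArg (fun z : ℚ => (z : AF)) h3
    exact h2
  have h2 := fn_inj h1
  by_contra hR
  have h3 : ((c.den : ℤ[X]) * R).natDegree = R.natDegree := by
    rw [show (c.den : ℤ[X]) = Polynomial.C ((c.den : ℤ)) by simp]
    exact Polynomial.natDegree_C_mul (by exact_mod_cast c.den_nz)
  rw [h2, Polynomial.natDegree_intCast] at h3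
  exact hR h3.symm

lemma isConst_add {x y : AF} (hx : IsConst x) (hy : IsConst y) : IsConst (x + y) := by
  have := charZero_AF
  obtain ⟨c, rfl⟩ := hx
  obtain ⟨d, rfl⟩ := hy
  exact ⟨c + d, by push_cast; ring⟩

lemma isConst_mul {x y : AF} (hx : IsConst x) (hy : IsConst y) : IsConst (x * y) := by
  have := charZero_AF
  obtain ⟨c, rfl⟩ := hx
  obtain ⟨d, rfl⟩ := hy
  exact ⟨c * d, by push_cast; ring⟩

lemma isConst_neg {x : AF} (hx : IsConst x) : IsConst (-x) := by
  have := charZero_AF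
  obtain ⟨c, rfl⟩ := hx
  exact ⟨-c, by push_cast; ring⟩

lemma isConst_inv {x : AF} (hx : IsConst x) : IsConst x⁻¹ := by
  have := charZero_AF
  obtain ⟨c, rfl⟩ := hx
  exact ⟨c⁻¹, by push_cast; ring⟩

lemma isConst_int (n : ℤ) : IsConst (n : AF) := ⟨n, by simp⟩

lemma X_ne : fn Polynomial.X ≠ 0 := by
  rw [Ne, ← map_zero fn]
  intro h
  exact Polynomial.X_ne_zero (fn_inj h)

/-- the exponents of constant monomials -/
def expo {r : ℕ} (y : Fin r → AF) (hy : ∀ i, y i ≠ 0) : AddSubgroup (ℤ × (Fin r → ℤ)) where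
  carrier := {v | IsConst (fn Polynomial.X ^ v.1 * ∏ i, y i ^ v.2 i)}
  zero_mem' := by
    show IsConst _
    simp only [Prod.fst_zero, Prod.snd_zero, Pi.zero_apply, zpow_zero, Finset.prod_const_one,
      mul_one]
    exact ⟨1, by simp⟩
  add_mem' := by
    intro v w hv hw
    show IsConst _
    have e : fn Polynomial.X ^ (v + w).1 * ∏ i, y i ^ (v + w).2 i =
        (fn Polynomial.X ^ v.1 * ∏ i, y i ^ v.2 i) * (fn Polynomial.X ^ w.1 * ∏ i, y i ^ w.2 i) := by
      rw [Prod.fst_add, Prod.snd_add, zpow_add₀ X_ne]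
      have e1 : ∏ i, y i ^ (v.2 + w.2) i = (∏ i, y i ^ v.2 i) * ∏ i, y i ^ w.2 i := by
        rw [← Finset.prod_mul_distrib]
        exact Finset.prod_congr rfl fun i _ => by rw [Pi.add_apply, zpow_add₀ (hy i)]
      rw [e1]
      ring
    rw [e]
    exact isConst_mul hv hw
  neg_mem' := by
    intro v hv
    show IsConst _
    have e : fn Polynomial.X ^ (-v).1 * ∏ i, y i ^ (-v).2 i =
        (fn Polynomial.X ^ v.1 * ∏ i, y i ^ v.2 i)⁻¹ := by
      rw [Prod.fst_neg, Prod.snd_neg, zpow_neg, mul_inv]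
      congr 1
      rw [← Finset.prod_inv_distrib]
      exact Finset.prod_congr rfl fun i _ => by rw [Pi.neg_apply, zpow_neg]
    rw [e]
    exact isConst_inv hv

lemma expo_zero {r : ℕ} (y : Fin r → AF) (hy : ∀ i, y i ≠ 0) (a : ℤ)
    (h : (a, (0 : Fin r → ℤ)) ∈ expo y hy) : a = 0 := by
  have key : ∀ n : ℕ, IsConst (fn Polynomial.X ^ n) → n = 0 := by
    intro n hn
    rw [← map_pow] at hn
    have h1 := fn_const hn
    rwa [Polynomial.natDegree_X_pow] at h1
  have h1 : IsConst (fn Polynomial.X ^ a) := by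
    have h2 : IsConst (fn Polynomial.X ^ a * ∏ i, y i ^ (0 : Fin r → ℤ) i) := h
    simpa using h2
  obtain ⟨n, rfl | rfl⟩ := a.eq_nat_or_neg
  · rw [zpow_natCast] at h1
    rw [key n h1]; rfl
  · rw [zpow_neg, zpow_natCast] at h1
    have h2 := isConst_inv h1
    rw [inv_inv] at h2
    rw [key n h2]; rfl

/-- the variables: the `t_i`, their inverses, and `1 / x` -/
noncomputable def vars {K : Type} [Field K] {r : ℕ} (x : K) (t : Fin r → K) : Fin (r + r + 1) → K :=
  Fin.append (Fin.append t fun i => (t i)⁻¹) fun _ => x⁻¹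

/-- the exponents -/
noncomputable def exps {r : ℕ} (a : ℤ) (b : Fin r → ℤ) : Fin (r + r + 1) →₀ ℕ :=
  Finsupp.equivFunOnFinite.symm
    (Fin.append (Fin.append (fun i => (b i).toNat) fun i => (-b i).toNat) fun _ => (-a).toNat)

lemma zpow_toNat {K : Type} [Field K] (x : K) (hx : x ≠ 0) (a : ℤ) :
    x ^ a.toNat * (x⁻¹) ^ (-a).toNat = x ^ a := by
  obtain ⟨n, rfl | rfl⟩ := a.eq_nat_or_neg
  · simp
  · simp

lemma prod_vars {K : Type} [Field K] {r : ℕ} (x : K) (t : Fin r → K) (ht : ∀ i, t i ≠ 0) (a : ℤ)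
    (b : Fin r → ℤ) : ∏ i, vars x t i ^ exps a b i = (∏ i, t i ^ b i) * (x⁻¹) ^ (-a).toNat := by
  rw [Fin.prod_univ_add, Fin.prod_univ_add]
  unfold vars exps
  simp only [Finsupp.equivFunOnFinite_symm_apply_apply, Fin.append_left, Fin.append_right,
    Finset.prod_const, Finset.card_univ, Fintype.card_fin, pow_one]
  rw [← Finset.prod_mul_distrib]
  congr 1
  refine Finset.prod_congr rfl fun i _ => ?_
  exact zpow_toNat (t i) (ht i) (b i)

lemma eval₂_rel2 {K : Type} [Field K] {m : ℕ} (φ : ℤ[X] →+* K) (v : Fin m → K) (i j : Fin m) :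
    (MvPolynomial.monomial (Finsupp.single i 1 + Finsupp.single j 1) 1 -
      MvPolynomial.C 1 : MvPolynomial (Fin m) ℤ[X]).eval₂ φ v = v i * v j - 1 := by
  rw [MvPolynomial.eval₂_sub, MvPolynomial.eval₂_monomial, MvPolynomial.eval₂_C,
    Finsupp.prod_add_index' (h := fun n e => v n ^ e) (fun _ => pow_zero _)
      (fun _ _ _ => pow_add _ _ _),
    Finsupp.prod_single_index (h := fun n e => v n ^ e) (pow_zero _),
    Finsupp.prod_single_index (h := fun n e => v n ^ e) (pow_zero _), pow_one, pow_one, map_one,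
    one_mul]

lemma eval₂_rel1 {K : Type} [Field K] {m : ℕ} (φ : ℤ[X] →+* K) (v : Fin m → K) (i : Fin m) :
    (MvPolynomial.monomial (Finsupp.single i 1) Polynomial.X - MvPolynomial.C 1 :
      MvPolynomial (Fin m) ℤ[X]).eval₂ φ v = φ Polynomial.X * v i - 1 := by
  rw [MvPolynomial.eval₂_sub, MvPolynomial.eval₂_monomial, MvPolynomial.eval₂_C,
    Finsupp.prod_single_index (h := fun n e => v n ^ e) (pow_zero _), pow_one, map_one]

lemma eval₂_mon {K : Type} [Field K] {r : ℕ} (φ : ℤ[X] →+* K) (x : K) (hx : x ≠ 0)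
    (hφ : φ Polynomial.X = x) (t : Fin r → K) (ht : ∀ i, t i ≠ 0) (A : ℤ) (a : ℤ) (b : Fin r → ℤ) :
    (MvPolynomial.monomial (exps a b) (Polynomial.C A * Polynomial.X ^ a.toNat)).eval₂ φ
      (vars x t) = A * (x ^ a * ∏ i, t i ^ b i) := by
  rw [MvPolynomial.eval₂_monomial, Finsupp.prod_fintype _ _ (fun i => pow_zero _), prod_vars x t ht,
    map_mul, map_pow, hφ]
  have h1 : φ (Polynomial.C A) = (A : K) := by
    rw [show (Polynomial.C A : ℤ[X]) = (A : ℤ[X]) by simp, map_intCast]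
  rw [h1, ← zpow_toNat x hx a]
  ring

lemma small_mon {r D : ℕ} (H : ℝ) (A a : ℤ) (b : Fin r → ℤ) (ha : |a| ≤ D) (hb : ∀ i, |b i| ≤ D)
    (hA : |(A : ℝ)| ≤ H) : Pool.Agent.V11210.NA.Small (2 + D + r * D) H
      (MvPolynomial.monomial (exps a b) (Polynomial.C A * Polynomial.X ^ a.toNat)) := by
  classical
  have hH : 0 ≤ H := (abs_nonneg _).trans hA
  have ha1 : a.toNat ≤ D ∧ (-a).toNat ≤ D := by
    have := abs_le.1 ha
    omega
  have hdeg : (Polynomial.C A * Polynomial.X ^ a.toNat : ℤ[X]).natDegree ≤ 2 + D + r * D := by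
    refine (Polynomial.natDegree_C_mul_X_pow_le _ _).trans ?_
    nlinarith [ha1.1]
  constructor
  · refine (MvPolynomial.totalDegree_monomial_le _ _).trans ?_
    rw [Finsupp.sum_fintype _ _ (fun i => rfl), Fin.sum_univ_add, Fin.sum_univ_add]
    unfold exps
    simp only [Finsupp.equivFunOnFinite_symm_apply_apply, Fin.append_left, Fin.append_right,
      Finset.sum_const, Finset.card_univ, Fintype.card_fin, smul_eq_mul, one_mul, id_eq]
    rw [← Finset.sum_add_distrib]
    have h1 : ∑ i : Fin r, ((b i).toNat + (-b i).toNat) ≤ ∑ _i : Fin r, D := by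
      refine Finset.sum_le_sum fun i _ => ?_
      have := abs_le.1 (hb i)
      omega
    rw [Finset.sum_const, Finset.card_univ, Fintype.card_fin, smul_eq_mul] at h1
    have := ha1.2
    omega
  · intro m
    rw [MvPolynomial.coeff_monomial]
    split_ifs
    · refine ⟨hdeg, fun i => ?_⟩
      rw [Polynomial.coeff_C_mul, Polynomial.coeff_X_pow]
      split_ifs
      · simpa using hA
      · simpa using hH
    · exact ⟨by simp, fun i => by simpa using hH⟩

/-- exact relations `u v = 1` -/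
lemma small_rel {m D : ℕ} (s : Fin m →₀ ℕ) (c : ℤ[X]) (hs : s.degree ≤ D) (hs0 : s ≠ 0)
    (hc : c.natDegree ≤ D) (hc1 : ∀ i, |(c.coeff i : ℝ)| ≤ 1) :
    Pool.Agent.V11210.NA.Small D 1 (MvPolynomial.monomial s c - MvPolynomial.C 1) := by
  classical
  constructor
  · refine (MvPolynomial.totalDegree_sub_C_le _ _).trans ?_
    refine (MvPolynomial.totalDegree_monomial_le _ _).trans ?_
    rw [Finsupp.degree_eq_sum] at hs
    rw [Finsupp.sum_fintype _ _ (fun i => rfl)]
    exact hs
  · intro k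
    rw [MvPolynomial.coeff_sub, MvPolynomial.coeff_monomial, MvPolynomial.coeff_C]
    by_cases h1 : s = k
    · have h2 : ¬ 0 = k := by
        rintro rfl
        exact hs0 h1
      rw [if_pos h1, if_neg h2, sub_zero]
      exact ⟨hc, hc1⟩
    · rw [if_neg h1]
      split_ifs
      · refine ⟨by simp, fun i => ?_⟩
        rw [zero_sub, Polynomial.coeff_neg, Polynomial.coeff_one]
        split_ifs <;> simp
      · simp

/-- **Monomials** -/
theorem mono (x : ℝ) (hx : MeasT (x : ℂ)) (hx0 : x ≠ 0) (r D : ℕ) :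
    ∃ ν : ℝ, 0 < ν ∧ ∀ T : ℝ, 1 ≤ T → ∃ K δ : ℝ, 0 < K ∧ 0 < δ ∧ ∀ t : Fin r → ℝ,
      (∀ i, T⁻¹ ≤ |t i| ∧ |t i| ≤ T) → ∀ Λ : ℝ, ∃ M : AddSubgroup (ℤ × (Fin r → ℤ)),
        (∀ a : ℤ, (a, (0 : Fin r → ℤ)) ∈ M → a = 0) ∧
        ∀ (a : ℤ) (b : Fin r → ℤ) (A : ℤ) (D₀ : ℕ), |a| ≤ D → (∀ i, |b i| ≤ D) → A ≠ 0 →
          |(A : ℝ)| ≤ Real.exp (δ * Λ) → 1 ≤ D₀ → (D₀ : ℝ) ≤ Real.exp (δ * Λ) →
          Pool.Agent.V1139.DC.Small ν K Λ (A * (x ^ a * ∏ i, t i ^ b i) / D₀) → (a, b) ∈ M := by
  obtain ⟨ν, hν, h⟩ := digits_core fn fn_inj x hx (r + r + 1) (2 + D + r * D)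
  refine ⟨ν, hν, fun T hT => ?_⟩
  obtain ⟨K, δ, hK, hδ, h⟩ := h (max T |x⁻¹|)
  refine ⟨K, δ, hK, hδ, fun t ht Λ => ?_⟩
  have hTi : 0 < T⁻¹ := by positivity
  have ht0 : ∀ i, t i ≠ 0 := by
    intro i h0
    have := (ht i).1
    rw [h0, abs_zero] at this
    linarith
  obtain ⟨y', hy1, hy2⟩ := h (vars x t) (by
    intro i
    unfold vars
    refine Fin.addCases (fun i => ?_) (fun i => ?_) i
    · rw [Fin.append_left]
      refine Fin.addCases (fun i => ?_) (fun i => ?_) i
      · rw [Fin.append_left]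
        exact (ht i).2.trans (le_max_left _ _)
      · rw [Fin.append_right, abs_inv]
        refine le_trans ?_ (le_max_left _ _)
        rw [inv_le_comm₀ (abs_pos.2 (ht0 i)) (by linarith)]
        exact (ht i).1
    · rw [Fin.append_right]
      exact le_max_right _ _) Λ
  obtain ⟨y, hy⟩ : ∃ y : Fin r → AF, y = fun i => y' (Fin.castAdd 1 (Fin.castAdd r i)) := ⟨_, rfl⟩
  have hinv : ∀ i, y i * y' (Fin.castAdd 1 (Fin.natAdd r i)) = 1 := by
    intro i
    have h1 := hy1 (MvPolynomial.monomial (Finsupp.single (Fin.castAdd 1 (Fin.castAdd r i)) 1 +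
        Finsupp.single (Fin.castAdd 1 (Fin.natAdd r i)) 1) 1 - MvPolynomial.C 1)
      (small_rel _ 1 (by
        rw [map_add, Finsupp.degree_single, Finsupp.degree_single]
        omega) (by
        intro h0
        have := congrArg Finsupp.degree h0
        rw [map_add, Finsupp.degree_single, Finsupp.degree_single] at this
        simp at this) (by simp) (by
        intro i
        rw [Polynomial.coeff_one]
        split_ifs <;> simp)) (by
        unfold rv
        rw [eval₂_rel2]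
        unfold vars
        rw [Fin.append_left, Fin.append_left, Fin.append_left, Fin.append_right,
          mul_inv_cancel₀ (ht0 i), sub_self])
    rw [eval₂_rel2, sub_eq_zero] at h1
    rw [hy]
    exact h1
  have hyX : fn Polynomial.X * y' (Fin.natAdd (r + r) 0) = 1 := by
    have h1 := hy1 (MvPolynomial.monomial (Finsupp.single (Fin.natAdd (r + r) 0) 1)
        Polynomial.X - MvPolynomial.C 1)
      (small_rel _ Polynomial.X (by
        rw [Finsupp.degree_single]
        omega) (by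
        intro h0
        have := congrArg Finsupp.degree h0
        rw [Finsupp.degree_single] at this
        simp at this) (by rw [Polynomial.natDegree_X]; omega) (by
        intro i
        rw [Polynomial.coeff_X]
        split_ifs <;> simp)) (by
        unfold rv
        rw [eval₂_rel1]
        unfold vars
        rw [Fin.append_right]
        simp [hx0])
    rw [eval₂_rel1, sub_eq_zero] at h1
    exact h1
  have hy0 : ∀ i, y i ≠ 0 := fun i => left_ne_zero_of_mul_eq_one (hinv i)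
  have hyv : y' = vars (fn Polynomial.X) y := by
    funext i
    unfold vars
    refine Fin.addCases (fun i => ?_) (fun i => ?_) i
    · rw [Fin.append_left]
      refine Fin.addCases (fun i => ?_) (fun i => ?_) i
      · rw [Fin.append_left, hy]
      · rw [Fin.append_right]
        exact (inv_eq_of_mul_eq_one_right (hinv i)).symm
    · rw [Fin.append_right, Subsingleton.elim i 0]
      exact (inv_eq_of_mul_eq_one_right hyX).symm
  refine ⟨expo y hy0, fun a ha => expo_zero y hy0 a ha, fun a b A D₀ ha hb hA0 hA hD1 hD₀ hs => ?_⟩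
  have hsm := small_mon (r := r) (D := D) (Real.exp (δ * Λ)) A a b ha hb hA
  have hval : rv x (vars x t) (MvPolynomial.monomial (exps a b)
      (Polynomial.C A * Polynomial.X ^ a.toNat)) = A * (x ^ a * ∏ i, t i ^ b i) := by
    unfold rv
    exact eval₂_mon _ x hx0 (by simp) t ht0 A a b
  obtain ⟨q, p, hq, hqp⟩ := hy2 _ D₀ hsm hD1 hD₀ (by rw [hval]; exact hs)
  rw [hyv, eval₂_mon fn (fn Polynomial.X) X_ne rfl y hy0 A a b] at hqp
  have h1 := isConst_of_mul hq hqp
  have := charZero_AF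
  have hA1 : (A : AF) ≠ 0 := by exact_mod_cast hA0
  have h2 : fn Polynomial.X ^ a * ∏ i, y i ^ b i =
      (A : AF)⁻¹ * (A * (fn Polynomial.X ^ a * ∏ i, y i ^ b i)) := by
    rw [← mul_assoc, inv_mul_cancel₀ hA1, one_mul]
  show IsConst (fn Polynomial.X ^ a * ∏ i, y i ^ b i)
  rw [h2]
  exact isConst_mul (isConst_inv (isConst_int A)) h1

end Pool.Agent.V1139.NA
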