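import Pool.Agent.V1139.NA.RingsA

/-!
# Rings and ideals generated at one scale, second part

Author: helper39.
-/

set_option autoImplicit false

namespace Pool.Agent.V1139.NA

open Pool.Agent.TH456.TM (σx MeasT σx_coeff)
open Pool.Agent.V11210.NA (near_core val AF fn fn_inj)
open scoped Polynomial

/-- total degree at most `D`, coefficients at most `H` -/
def Low {n : ℕ} (D : ℕ) (H : ℝ) (P : MvPolynomial (Fin n) ℤ) : Prop :=
  P.totalDegree ≤ D ∧ ∀ m, |((P.coeff m : ℤ) : ℝ)| ≤ H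

lemma small_map {n D : ℕ} {H : ℝ} (hH : 0 ≤ H) {P : MvPolynomial (Fin n) ℤ} (hP : Low D H P) :
    Pool.Agent.V11210.NA.Small D H (P.map (Polynomial.C : ℤ →+* ℤ[X])) := by
  constructor
  · refine le_trans ?_ hP.1
    rw [MvPolynomial.totalDegree, MvPolynomial.totalDegree]
    exact Finset.sup_mono (MvPolynomial.support_map_subset _ _)
  · intro m
    rw [MvPolynomial.coeff_map]
    refine ⟨by simp, fun i => ?_⟩
    rw [Polynomial.coeff_C]
    split_ifs
    · exact hP.2 m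
    · simpa using hH

lemma eval₂_mapC {K : Type} [CommRing K] {n : ℕ} (φ : ℤ[X] →+* K) (v : Fin n → K)
    (P : MvPolynomial (Fin n) ℤ) :
    (P.map (Polynomial.C : ℤ →+* ℤ[X])).eval₂ φ v = P.eval₂ (Int.castRingHom K) v := by
  rw [MvPolynomial.eval₂_map]
  congr 1
  exact RingHom.ext_int _ _

/-- the relation `G(Y) = X` -/
noncomputable def relG {n : ℕ} (G : MvPolynomial (Fin n) ℤ) : MvPolynomial (Fin n) ℤ[X] :=
  G.map (Polynomial.C : ℤ →+* ℤ[X]) - MvPolynomial.C Polynomial.X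

lemma small_relG {n D : ℕ} {H : ℝ} (hD : 1 ≤ D) (hH : 1 ≤ H) {G : MvPolynomial (Fin n) ℤ}
    (hG : Low D H G) : Pool.Agent.V11210.NA.Small D H (relG G) := by
  classical
  have h0 := small_map (by linarith) hG
  constructor
  · exact (MvPolynomial.totalDegree_sub_C_le _ _).trans h0.1
  · intro m
    unfold relG
    rw [MvPolynomial.coeff_sub, MvPolynomial.coeff_C, MvPolynomial.coeff_map]
    constructor
    · refine (Polynomial.natDegree_sub_le _ _).trans (max_le (by simp) ?_)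
      split_ifs
      · rw [Polynomial.natDegree_X]; exact hD
      · simp
    · intro i
      by_cases h1 : 0 = m
      · rw [if_pos h1, Polynomial.coeff_sub, Polynomial.coeff_C, Polynomial.coeff_X]
        by_cases h2 : i = 0
        · subst h2
          simpa using hG.2 m
        · rw [if_neg h2, zero_sub]
          split_ifs <;> push_cast <;> simp <;> linarith
      · rw [if_neg h1, sub_zero, Polynomial.coeff_C]
        split_ifs
        · exact hG.2 m
        · simp; linarith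

lemma eval₂_relG {K : Type} [CommRing K] {n : ℕ} (φ : ℤ[X] →+* K) (v : Fin n → K)
    (G : MvPolynomial (Fin n) ℤ) :
    (relG G).eval₂ φ v = G.eval₂ (Int.castRingHom K) v - φ Polynomial.X := by
  unfold relG
  rw [MvPolynomial.eval₂_sub, MvPolynomial.eval₂_C, eval₂_mapC]

lemma exists_low {n : ℕ} (G : MvPolynomial (Fin n) ℤ) : ∃ B : ℝ, 1 ≤ B ∧ Low G.totalDegree B G := by
  classical
  refine ⟨1 + ∑ m ∈ G.support, |((G.coeff m : ℤ) : ℝ)|, ?_, le_rfl, fun m => ?_⟩
  · have : 0 ≤ ∑ m ∈ G.support, |((G.coeff m : ℤ) : ℝ)| := Finset.sum_nonneg fun _ _ => abs_nonneg _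
    linarith
  · by_cases hm : m ∈ G.support
    · have h1 := Finset.single_le_sum (f := fun m => |((G.coeff m : ℤ) : ℝ)|)
        (fun i _ => abs_nonneg _) hm
      linarith
    · rw [MvPolynomial.notMem_support_iff.1 hm]
      have : 0 ≤ ∑ m ∈ G.support, |((G.coeff m : ℤ) : ℝ)| :=
        Finset.sum_nonneg fun _ _ => abs_nonneg _
      simp
      linarith

/-- **Near relations at one height**: one point of algebraic functions with `G(y) = X`. -/
theorem near_point {n : ℕ} (lam : Fin n → ℂ) (G : MvPolynomial (Fin n) ℤ)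
    (hG : MeasT (G.eval₂ (Int.castRingHom ℂ) lam)) (D : ℕ) :
    ∃ κ c : ℝ, 0 < κ ∧ 0 < c ∧ ∀ H : ℝ, 1 ≤ H → ∃ y : Fin n → AF,
      G.eval₂ (Int.castRingHom AF) y = fn Polynomial.X ∧
      ∀ P : MvPolynomial (Fin n) ℤ, Low D H P →
        ‖P.eval₂ (Int.castRingHom ℂ) lam‖ < c * H ^ (-κ) → P.eval₂ (Int.castRingHom AF) y = 0 := by
  obtain ⟨B, hB1, hB⟩ := exists_low G
  obtain ⟨D', hD'⟩ : ∃ D', D' = max D (G.totalDegree + 1) := ⟨_, rfl⟩
  obtain ⟨κ, hκ, h⟩ := near_core fn fn_inj _ hG n D'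
  obtain ⟨c, hc, h⟩ := h (∑ i, ‖lam i‖)
  have hB0 : 0 < B := by linarith
  refine ⟨κ, c * B ^ (-κ), hκ, by positivity, fun H hH => ?_⟩
  have hH0 : 0 < H := by linarith
  have hBH : 1 ≤ B * H := one_le_mul_of_one_le_of_one_le hB1 hH
  obtain ⟨y, hy⟩ := h lam (fun i => Finset.single_le_sum (f := fun i => ‖lam i‖)
    (fun i _ => norm_nonneg _) (Finset.mem_univ i)) (B * H) hBH
  refine ⟨y, ?_, fun P hP hPs => ?_⟩
  · have h1 := hy (relG G) (small_relG (by omega) hBH ⟨hB.1.trans (by omega), fun m =>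
      (hB.2 m).trans (le_mul_of_one_le_right hB0.le hH)⟩) (by
        rw [val, eval₂_relG]
        have h2 : σx (G.eval₂ (Int.castRingHom ℂ) lam) Polynomial.X =
            G.eval₂ (Int.castRingHom ℂ) lam := by simp [σx]
        rw [h2, sub_self, norm_zero]
        positivity)
    rw [eval₂_relG, sub_eq_zero] at h1
    exact h1
  · have h1 := hy _ (small_map (by positivity) (⟨hP.1.trans (by omega), fun m =>
      (hP.2 m).trans (le_mul_of_one_le_left hH0.le hB1)⟩ : Low D' (B * H) P)) (by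
        rw [val, eval₂_mapC, Real.mul_rpow hB0.le hH0.le, ← mul_assoc]
        exact hPs)
    rwa [eval₂_mapC] at h1

/-- **Digits at one scale**: one point of algebraic functions with `G(y) = X`. -/
theorem digit_point {n : ℕ} (lam : Fin n → ℝ) (G : MvPolynomial (Fin n) ℤ)
    (hG : MeasT ((G.eval₂ (Int.castRingHom ℝ) lam : ℝ) : ℂ)) (D : ℕ) :
    ∃ ν K δ : ℝ, 0 < ν ∧ 0 < K ∧ 0 < δ ∧ ∀ Λ : ℝ, ∃ y : Fin n → AF,
      G.eval₂ (Int.castRingHom AF) y = fn Polynomial.X ∧
      ∀ (P : MvPolynomial (Fin n) ℤ) (E : ℕ), Low D (Real.exp (δ * Λ)) P → 1 ≤ E →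
        (E : ℝ) ≤ Real.exp (δ * Λ) →
        Pool.Agent.V1139.DC.Small ν K Λ (P.eval₂ (Int.castRingHom ℝ) lam / E) →
        IsConst (P.eval₂ (Int.castRingHom AF) y) := by
  obtain ⟨B, hB1, hB⟩ := exists_low G
  obtain ⟨D', hD'⟩ : ∃ D', D' = max D (G.totalDegree + 1) := ⟨_, rfl⟩
  obtain ⟨ν, hν, h⟩ := digits_coreB fn fn_inj _ hG n D' B
  obtain ⟨K, δ, hK, hδ, h⟩ := h (∑ i, |lam i|)
  refine ⟨ν, K, δ, hν, hK, hδ, fun Λ => ?_⟩
  obtain ⟨y, hy1, hy2⟩ := h lam (fun i => Finset.single_le_sum (f := fun i => |lam i|)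
    (fun i _ => abs_nonneg _) (Finset.mem_univ i)) Λ
  refine ⟨y, ?_, fun P E hP hE1 hE hs => ?_⟩
  · have h1 := hy1 (relG G) (small_relG (by omega) hB1 ⟨hB.1.trans (by omega), hB.2⟩) (by
        rw [rv, eval₂_relG]
        simp)
    rw [eval₂_relG, sub_eq_zero] at h1
    exact h1
  · obtain ⟨q, p, hq, hqp⟩ := hy2 (P.map (Polynomial.C : ℤ →+* ℤ[X])) E (small_map
      (Real.exp_pos _).le (⟨hP.1.trans (by omega), hP.2⟩ : Low D' _ P)) hE1 hE (by
        rw [rv, eval₂_mapC]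
        exact hs)
    rw [eval₂_mapC] at hqp
    exact isConst_of_mul hq hqp

/-- polynomials with rational coefficients -/
noncomputable def toQ {n : ℕ} (P : MvPolynomial (Fin n) ℤ) : MvPolynomial (Fin n) ℚ :=
  P.map (Int.castRingHom ℚ)

/-- the variable is transcendental -/
lemma trans_X (g : ℚ[X]) (ψ : ℚ →+* AF) (h : g.eval₂ ψ (fn Polynomial.X) = 0) : g = 0 := by
  obtain ⟨b, hb, hg⟩ := IsLocalization.integerNormalization_spec (nonZeroDivisors ℤ) g
  set g' := IsLocalization.integerNormalization (nonZeroDivisors ℤ) g with hg'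
  have h1 : ∀ f : ℤ[X], fn f = (f.map (algebraMap ℤ ℚ)).eval₂ ψ (fn Polynomial.X) := by
    intro f
    rw [Polynomial.eval₂_map]
    have e : (Polynomial.eval₂RingHom (ψ.comp (algebraMap ℤ ℚ)) (fn Polynomial.X)) = fn := by
      refine Polynomial.ringHom_ext (fun a => ?_) ?_
      · rw [Polynomial.coe_eval₂RingHom, Polynomial.eval₂_C]
        have : (Polynomial.C a : ℤ[X]) = (a : ℤ[X]) := by simp
        rw [this, map_intCast]
        simp
      · rw [Polynomial.coe_eval₂RingHom, Polynomial.eval₂_X]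
    have h2 := congrArg (fun k : ℤ[X] →+* AF => k f) e
    exact h2.symm
  have h2 : fn g' = 0 := by
    rw [h1, hg, Algebra.smul_def, Polynomial.eval₂_mul, h, mul_zero]
  have h3 : g' = 0 := fn_inj (by rw [h2, map_zero])
  exact (IsLocalization.integerNormalization_eq_zero_iff (le_refl _) g).1 h3

lemma eval₂_toQ {n : ℕ} (ψ : ℚ →+* AF) (y : Fin n → AF) (P : MvPolynomial (Fin n) ℤ) :
    (toQ P).eval₂ ψ y = P.eval₂ (Int.castRingHom AF) y := by
  unfold toQ
  rw [MvPolynomial.eval₂_map]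
  congr 1
  exact RingHom.ext_int _ _

lemma eval₂_aeval {n : ℕ} (ψ : ℚ →+* AF) (y : Fin n → AF) (Q : MvPolynomial (Fin n) ℚ) (f : ℚ[X]) :
    (Polynomial.aeval Q f).eval₂ ψ y = f.eval₂ ψ (Q.eval₂ ψ y) := by
  have e : (MvPolynomial.eval₂Hom ψ y).comp
      ((Polynomial.aeval Q : ℚ[X] →ₐ[ℚ] MvPolynomial (Fin n) ℚ) : ℚ[X] →+* MvPolynomial (Fin n) ℚ) =
      Polynomial.eval₂RingHom ψ (Q.eval₂ ψ y) := by
    refine Polynomial.ringHom_ext (fun a => ?_) ?_
    · simp
    · simp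
  exact congrArg (fun k : ℚ[X] →+* AF => k f) e

/-- the ideal -/
theorem ideal_of_point {n : ℕ} (N : Set (MvPolynomial (Fin n) ℤ)) (G : MvPolynomial (Fin n) ℤ)
    (y : Fin n → AF) (hG : G.eval₂ (Int.castRingHom AF) y = fn Polynomial.X)
    (hN : ∀ P ∈ N, P.eval₂ (Int.castRingHom AF) y = 0) (f : ℚ[X])
    (hf : Polynomial.aeval (toQ G) f ∈ Ideal.span (toQ '' N)) : f = 0 := by
  have := charZero_AF
  have h1 : Ideal.span (toQ '' N) ≤ RingHom.ker (MvPolynomial.eval₂Hom (Rat.castHom AF) y) := by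
    rw [Ideal.span_le]
    rintro _ ⟨P, hP, rfl⟩
    show (toQ P).eval₂ (Rat.castHom AF) y = 0
    rw [eval₂_toQ]
    exact hN P hP
  have h2 : (Polynomial.aeval (toQ G) f).eval₂ (Rat.castHom AF) y = 0 := h1 hf
  rw [eval₂_aeval, eval₂_toQ, hG] at h2
  exact trans_X f _ h2

/-- the ring -/
theorem ring_of_point {n : ℕ} (N : Set (MvPolynomial (Fin n) ℤ)) (G : MvPolynomial (Fin n) ℤ)
    (y : Fin n → AF) (hG : G.eval₂ (Int.castRingHom AF) y = fn Polynomial.X)
    (hN : ∀ P ∈ N, IsConst (P.eval₂ (Int.castRingHom AF) y)) (f : ℚ[X])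
    (hf : Polynomial.aeval (toQ G) f ∈ Algebra.adjoin ℚ (toQ '' N)) : f.natDegree = 0 := by
  have := charZero_AF
  have h1 : ∀ Q ∈ Algebra.adjoin ℚ (toQ '' N), IsConst (Q.eval₂ (Rat.castHom AF) y) := by
    intro Q hQ
    induction hQ using Algebra.adjoin_induction with
    | mem Q hQ =>
      obtain ⟨P, hP, rfl⟩ := hQ
      rw [eval₂_toQ]
      exact hN P hP
    | algebraMap a =>
      rw [MvPolynomial.algebraMap_eq, MvPolynomial.eval₂_C]
      exact ⟨a, rfl⟩
    | add P Q _ _ h1 h2 =>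
      rw [MvPolynomial.eval₂_add]
      exact isConst_add h1 h2
    | mul P Q _ _ h1 h2 =>
      rw [MvPolynomial.eval₂_mul]
      exact isConst_mul h1 h2
  obtain ⟨a, ha⟩ := h1 _ hf
  rw [eval₂_aeval, eval₂_toQ, hG] at ha
  have h2 : (f - Polynomial.C a).eval₂ (Rat.castHom AF) (fn Polynomial.X) = 0 := by
    rw [Polynomial.eval₂_sub, Polynomial.eval₂_C, ha]
    simp
  have h3 := trans_X _ _ h2
  rw [sub_eq_zero.1 h3, Polynomial.natDegree_C]

end Pool.Agent.V1139.NA
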